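import Mathlib

/-!
# Abstract identities for solutions of the classical Yang-Baxter relation

`h i j` antisymmetric with `h i j * h j k = h i k * (h i j + h j k)` for distinct indices
(for instance `h i j = 1 / (u i - u j)` when `i`, `j` have the same colour and `0` otherwise).
-/

namespace Pool.Agent.T6.H58.RK

variable {ι K : Type*} [DecidableEq ι] [CommRing K]

/-- antisymmetry and the classical Yang-Baxter relation -/
structure YB (h : ι → ι → K) : Prop where
  anti : ∀ i j, i ≠ j → h j i = - h i j
  yb : ∀ i j k, i ≠ j → j ≠ k → i ≠ k → h i j * h j k = h i k * (h i j + h j k)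

theorem sum_one {h : ι → ι → K} (hh : YB h) (T : Finset ι) :
    ∀ a, a ∉ T → ∏ i ∈ T, (1 - h a i) + ∑ l ∈ T, h a l * ∏ i ∈ T.erase l, (1 - h l i) = 1 := by
  induction T using Finset.induction_on with
  | empty => intro a _; simp
  | insert j T hj ih =>
    intro a ha
    have haj : a ≠ j := fun e => ha (by simp [e])
    have haT : a ∉ T := fun e => ha (by simp [e])
    rw [Finset.prod_insert hj, Finset.sum_insert hj, Finset.erase_insert hj]
    have key : ∑ l ∈ T, h a l * ∏ i ∈ (insert j T).erase l, (1 - h l i)
        = (1 - h a j) * ∑ l ∈ T, h a l * ∏ i ∈ T.erase l, (1 - h l i)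
          + h a j * ∑ l ∈ T, h j l * ∏ i ∈ T.erase l, (1 - h l i) := by
      rw [Finset.mul_sum, Finset.mul_sum, ← Finset.sum_add_distrib]
      refine Finset.sum_congr rfl fun l hl => ?_
      have hlj : l ≠ j := fun e => hj (e ▸ hl)
      have hal : a ≠ l := fun e => haT (e ▸ hl)
      have he : (insert j T).erase l = insert j (T.erase l) := by
        rw [Finset.erase_insert_of_ne (Ne.symm hlj)]
      rw [he, Finset.prod_insert (fun e => hj (Finset.mem_of_mem_erase e))]
      have h1 := hh.anti l j hlj
      have h2 := hh.yb a l j hal hlj haj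
      rw [h1]
      linear_combination (-(∏ i ∈ T.erase l, (1 - h l i))) * h2
    rw [key]
    have e1 := ih a haT
    have e2 := ih j hj
    linear_combination (1 - h a j) * e1 + h a j * e2

theorem sum_two {h : ι → ι → K} (hh : YB h) (T : Finset ι) :
    ∀ a, a ∉ T → ∑ l ∈ T, h a l * ∏ i ∈ T.erase l, ((1 - h l i) * (1 - h i a))
      = ∏ i ∈ T, (1 - h i a) - 1 := by
  induction T using Finset.induction_on with
  | empty => intro a _; simp
  | insert j T hj ih =>
    intro a ha
    have haj : a ≠ j := fun e => ha (by simp [e])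
    have haT : a ∉ T := fun e => ha (by simp [e])
    rw [Finset.prod_insert hj, Finset.sum_insert hj, Finset.erase_insert hj]
    have key : ∑ l ∈ T, h a l * ∏ i ∈ (insert j T).erase l, ((1 - h l i) * (1 - h i a))
        = ∑ l ∈ T, h a l * ∏ i ∈ T.erase l, ((1 - h l i) * (1 - h i a))
          + h a j * (∏ i ∈ T, (1 - h i a)) *
            ∑ l ∈ T, h j l * ∏ i ∈ T.erase l, (1 - h l i) := by
      rw [Finset.mul_sum, ← Finset.sum_add_distrib]
      refine Finset.sum_congr rfl fun l hl => ?_
      have hlj : l ≠ j := fun e => hj (e ▸ hl)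
      have hal : a ≠ l := fun e => haT (e ▸ hl)
      have he : (insert j T).erase l = insert j (T.erase l) := by
        rw [Finset.erase_insert_of_ne (Ne.symm hlj)]
      rw [he, Finset.prod_insert (fun e => hj (Finset.mem_of_mem_erase e))]
      rw [← Finset.mul_prod_erase T (fun i => 1 - h i a) hl, Finset.prod_mul_distrib]
      have h1 := hh.anti l j hlj
      have h2 := hh.anti a j haj
      have h3 := hh.anti a l hal
      have h4 := hh.yb a l j hal hlj haj
      rw [h1, h2, h3]
      linear_combination (-(∏ i ∈ T.erase l, (1 - h l i)) * (∏ i ∈ T.erase l, (1 - h i a))) * h4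
    rw [key, ih a haT, Finset.prod_mul_distrib]
    have e2 := sum_one hh T j hj
    have h2 := hh.anti a j haj
    rw [h2]
    linear_combination h a j * (∏ i ∈ T, (1 - h i a)) * e2

end Pool.Agent.T6.H58.RK
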