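import Mathlib
import Pool.Agent.T6.H58.RK.Abs

/-!
# The operators `R i j`, `t p` on functions on configurations
-/

namespace Pool.Agent.T6.H58.RK

open Equiv

variable {ι : Type*} [DecidableEq ι]

/-- configurations: which particle sits at which position, and a counter for every position -/
abbrev Cfg (ι : Type*) := Equiv.Perm ι × (ι → ℤ)

/-- swap the content of two positions -/
def sw (i j : ι) (w : Cfg ι) : Cfg ι := (w.1 * Equiv.swap i j, w.2 ∘ Equiv.swap i j)

/-- increase the counter of the position `p` -/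
def inc (p : ι) (w : Cfg ι) : Cfg ι := (w.1, fun i => w.2 i + if i = p then 1 else 0)

/-- the function `h` -/
def hf (u : ι → ℚ) (k : ℕ) (w : Cfg ι) (i j : ι) : ℚ :=
  if (k : ℤ) ∣ w.2 i - w.2 j then (u (w.1 i) - u (w.1 j))⁻¹ else 0

omit [DecidableEq ι] in
theorem hf_YB {u : ι → ℚ} (hu : Function.Injective u) (k : ℕ) (w : Cfg ι) :
    YB (hf u k w) := by
  constructor
  · intro i j _
    unfold hf
    have : (k : ℤ) ∣ w.2 j - w.2 i ↔ (k : ℤ) ∣ w.2 i - w.2 j := by
      rw [← dvd_neg]; ring_nf
    by_cases hd : (k : ℤ) ∣ w.2 i - w.2 j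
    · rw [if_pos hd, if_pos (this.2 hd), ← neg_sub, inv_neg]
    · rw [if_neg hd, if_neg (fun e => hd (this.1 e))]; simp
  · intro i j l hij hjl hil
    unfold hf
    have e1 : u (w.1 i) - u (w.1 j) ≠ 0 := by
      intro e; exact hij (w.1.injective (hu (sub_eq_zero.1 e)))
    have e2 : u (w.1 j) - u (w.1 l) ≠ 0 := by
      intro e; exact hjl (w.1.injective (hu (sub_eq_zero.1 e)))
    have e3 : u (w.1 i) - u (w.1 l) ≠ 0 := by
      intro e; exact hil (w.1.injective (hu (sub_eq_zero.1 e)))
    by_cases h1 : (k : ℤ) ∣ w.2 i - w.2 j <;> by_cases h2 : (k : ℤ) ∣ w.2 j - w.2 l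
    · have h3 : (k : ℤ) ∣ w.2 i - w.2 l := by
        have := dvd_add h1 h2; simpa using this
      rw [if_pos h1, if_pos h2, if_pos h3]
      field_simp
      ring
    · have h3 : ¬ (k : ℤ) ∣ w.2 i - w.2 l := by
        intro h3
        apply h2
        have := dvd_sub h3 h1; simpa using this
      rw [if_pos h1, if_neg h2, if_neg h3]; ring
    · have h3 : ¬ (k : ℤ) ∣ w.2 i - w.2 l := by
        intro h3
        apply h1
        have := dvd_sub h3 h2; simpa using this
      rw [if_neg h1, if_pos h2, if_neg h3]; ring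
    · rw [if_neg h1, if_neg h2]; ring

theorem hf_sw (u : ι → ℚ) (k : ℕ) (w : Cfg ι) (a b i j : ι) :
    hf u k (sw a b w) i j = hf u k w (Equiv.swap a b i) (Equiv.swap a b j) := rfl

theorem sw_sw (i j : ι) (w : Cfg ι) : sw i j (sw i j w) = w := by
  rcases w with ⟨s, c⟩
  simp only [sw, Prod.mk.injEq]
  refine ⟨by rw [mul_assoc, Equiv.swap_mul_self, mul_one], ?_⟩
  funext x; simp

theorem sw_symm (i j : ι) (w : Cfg ι) : sw i j w = sw j i w := by
  simp [sw, Equiv.swap_comm i j]

/-- the R-matrix -/
def R (u : ι → ℚ) (k : ℕ) (i j : ι) : Module.End ℚ (Cfg ι → ℚ) where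
  toFun f := fun w => f w + hf u k w i j * (f (sw i j w) - f w)
  map_add' f g := by ext w; simp only [Pi.add_apply]; ring
  map_smul' c f := by ext w; simp only [Pi.smul_apply, smul_eq_mul, RingHom.id_apply]; ring

theorem R_apply (u : ι → ℚ) (k : ℕ) (i j : ι) (f : Cfg ι → ℚ) (w : Cfg ι) :
    R u k i j f w = f w + hf u k w i j * (f (sw i j w) - f w) := rfl

/-- the translations -/
def tt (p : ι) : Module.End ℚ (Cfg ι → ℚ) where
  toFun f := fun w => f (inc p w)
  map_add' f g := by ext w; simp
  map_smul' c f := by ext w; simp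

theorem tt_apply (p : ι) (f : Cfg ι → ℚ) (w : Cfg ι) : tt p f w = f (inc p w) := rfl

theorem R_mul_R {u : ι → ℚ} (hu : Function.Injective u) (k : ℕ) {i j : ι} (hij : i ≠ j) :
    R u k i j * R u k j i = 1 := by
  ext f w
  have h1 := (hf_YB hu k w).anti i j hij
  simp only [Module.End.mul_apply, Module.End.one_apply, R_apply, hf_sw, sw_symm j i, sw_sw,
    Equiv.swap_apply_left, Equiv.swap_apply_right]
  rw [h1]; ring

theorem tt_comm (p q : ι) : tt p * tt q = tt q * tt p := by
  ext f w
  simp only [Module.End.mul_apply, tt_apply]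
  congr 1
  simp only [inc, Prod.mk.injEq, true_and]
  funext i; ring

theorem sw_inc {p i j : ι} (w : Cfg ι) (hi : p ≠ i) (hj : p ≠ j) :
    sw i j (inc p w) = inc p (sw i j w) := by
  simp only [sw, inc, Prod.mk.injEq, true_and]
  funext x
  simp only [Function.comp]
  congr 1
  by_cases hx : x = p
  · subst hx
    rw [Equiv.swap_apply_of_ne_of_ne hi hj]
  · rw [if_neg hx, if_neg]
    intro e
    apply hx
    have : Equiv.swap i j (Equiv.swap i j x) = Equiv.swap i j p := by rw [e]
    rwa [Equiv.swap_apply_self, Equiv.swap_apply_of_ne_of_ne hi hj] at this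

theorem hf_inc {p i j : ι} (u : ι → ℚ) (k : ℕ) (w : Cfg ι) (hi : p ≠ i) (hj : p ≠ j) :
    hf u k (inc p w) i j = hf u k w i j := by
  simp [hf, inc, Ne.symm hi, Ne.symm hj]

theorem tt_R (u : ι → ℚ) (k : ℕ) {p i j : ι} (hi : p ≠ i) (hj : p ≠ j) :
    tt p * R u k i j = R u k i j * tt p := by
  ext f w
  simp only [Module.End.mul_apply, tt_apply, R_apply, sw_inc w hi hj, hf_inc u k w hi hj]

theorem tt_tt_R (u : ι → ℚ) (k : ℕ) {i j : ι} (hij : i ≠ j) :
    tt i * tt j * R u k i j = R u k i j * (tt i * tt j) := by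
  ext f w
  simp only [Module.End.mul_apply, tt_apply, R_apply]
  have h1 : hf u k (inc j (inc i w)) i j = hf u k w i j := by
    simp [hf, inc, hij, hij.symm]
  have h2 : sw i j (inc j (inc i w)) = inc j (inc i (sw i j w)) := by
    simp only [sw, inc, Prod.mk.injEq, true_and]
    funext x
    simp only [Function.comp]
    by_cases hx : x = i
    · subst hx; simp [hij, hij.symm]
    · by_cases hx' : x = j
      · subst hx'; simp [hij, hij.symm]
      · rw [Equiv.swap_apply_of_ne_of_ne hx hx']
  rw [h1, h2]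

theorem R_comm_R (u : ι → ℚ) (k : ℕ) {i j a b : ι} (hia : i ≠ a) (hib : i ≠ b) (hja : j ≠ a)
    (hjb : j ≠ b) : R u k i j * R u k a b = R u k a b * R u k i j := by
  ext f w
  have e : sw a b (sw i j w) = sw i j (sw a b w) := by
    simp only [sw, Prod.mk.injEq]
    have hc : Equiv.swap i j * Equiv.swap a b = Equiv.swap a b * Equiv.swap i j := by
      apply Equiv.Perm.Disjoint.commute
      rw [Equiv.Perm.disjoint_iff_eq_or_eq]
      intro x
      by_cases hx : x = i
      · right; subst hx; exact Equiv.swap_apply_of_ne_of_ne hia hib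
      · by_cases hx' : x = j
        · right; subst hx'; exact Equiv.swap_apply_of_ne_of_ne hja hjb
        · left; exact Equiv.swap_apply_of_ne_of_ne hx hx'
    refine ⟨by rw [mul_assoc, hc, mul_assoc], ?_⟩
    have hc' : ∀ x, Equiv.swap i j (Equiv.swap a b x) = Equiv.swap a b (Equiv.swap i j x) :=
      fun x => by
        have := congrArg (fun σ : Equiv.Perm ι => σ x) hc
        simpa using this
    funext x
    simp only [Function.comp, hc']
  simp only [Module.End.mul_apply, R_apply, hf_sw, e,
    Equiv.swap_apply_of_ne_of_ne hia hib, Equiv.swap_apply_of_ne_of_ne hja hjb,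
    Equiv.swap_apply_of_ne_of_ne hia.symm hja.symm, Equiv.swap_apply_of_ne_of_ne hib.symm hjb.symm]
  ring

/-- relation between transpositions on configurations -/
theorem sw3 {i j l : ι} (_hij : i ≠ j) (hil : i ≠ l) (hjl : j ≠ l) (w : Cfg ι) :
    sw j l (sw i j w) = sw i j (sw i l w) := by
  have key : Equiv.swap i j * Equiv.swap j l = Equiv.swap i l * Equiv.swap i j := by
    rw [Equiv.mul_swap_eq_swap_mul, Equiv.swap_apply_right,
      Equiv.swap_apply_of_ne_of_ne hil.symm hjl.symm]
  have key' : ∀ x, Equiv.swap i j (Equiv.swap j l x) = Equiv.swap i l (Equiv.swap i j x) :=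
      fun x => by
        have := congrArg (fun σ : Equiv.Perm ι => σ x) key
        simpa using this
  simp only [sw, Prod.mk.injEq]
  refine ⟨by rw [mul_assoc, key, mul_assoc], ?_⟩
  funext x
  simp only [Function.comp, key']

theorem YBE {u : ι → ℚ} (hu : Function.Injective u) (k : ℕ) {i j l : ι} (hij : i ≠ j)
    (hil : i ≠ l) (hjl : j ≠ l) :
    R u k i j * R u k i l * R u k j l = R u k j l * R u k i l * R u k i j := by
  ext f w
  have h1 := (hf_YB hu k w).anti i j hij
  have h3 := (hf_YB hu k w).anti j l hjl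
  have h4 := (hf_YB hu k w).yb i j l hij hjl hil
  have s1 : sw j l (sw i j w) = sw i j (sw i l w) := sw3 hij hil hjl w
  have s2 : sw i l (sw j l w) = sw i j (sw i l w) := by
    have := sw3 (i := j) (j := l) (l := i) hjl hij.symm hil.symm w
    rw [sw_symm l i, sw_symm j i w] at this
    rw [this, s1]
  have s3 : sw i j (sw j l w) = sw i l (sw i j w) := by
    have := sw3 (i := j) (j := i) (l := l) hij.symm hjl hil w
    rw [sw_symm j i, sw_symm j i] at this
    rw [this]
  have s4 : sw j l (sw i l w) = sw i l (sw i j w) := by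
    have := sw3 (i := i) (j := l) (l := j) hil hij hjl.symm w
    rw [sw_symm l j] at this
    rw [this]
  have s5 : sw j l (sw i l (sw i j w)) = sw i l w := by
    rw [← s4, sw_sw]
  have s6 : sw i j (sw i l (sw j l w)) = sw i l w := by
    rw [s2, sw_sw]
  simp only [Module.End.mul_apply, R_apply, hf_sw,
    Equiv.swap_apply_left, Equiv.swap_apply_right, Equiv.swap_apply_of_ne_of_ne hil.symm hjl.symm,
    Equiv.swap_apply_of_ne_of_ne hij.symm hjl, Equiv.swap_apply_of_ne_of_ne hij hil, s5, s6]
  simp only [s1, s2, s3, s4, h1, h3]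
  linear_combination ((hf u k w i j - hf u k w j l) * f (sw i l w)
    - (1 - hf u k w j l) * f (sw i j (sw i l w))
    + (1 - hf u k w i j) * f (sw i l (sw i j w))) * h4

end Pool.Agent.T6.H58.RK
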