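import Mathlib
import Pool.Agent.T6.H58.RK.Ops

/-!
# The commuting operators `Yg`
-/

namespace Pool.Agent.T6.H58.RK

variable {ι : Type*} [DecidableEq ι]

/-- ordered product of R-matrices -/
def RL (u : ι → ℚ) (k : ℕ) (a : ι) (L : List ι) : Module.End ℚ (Cfg ι → ℚ) :=
  (L.map (R u k a)).prod

/-- the operators `Y` for a splitting of the order -/
def Yg (u : ι → ℚ) (k : ℕ) (L₁ : List ι) (a : ι) (L₂ : List ι) : Module.End ℚ (Cfg ι → ℚ) :=
  RL u k a L₂ * tt a * RL u k a L₁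

theorem RL_nil (u : ι → ℚ) (k : ℕ) (a : ι) : RL u k a [] = 1 := rfl

theorem RL_cons (u : ι → ℚ) (k : ℕ) (a b : ι) (L : List ι) :
    RL u k a (b :: L) = R u k a b * RL u k a L := by
  simp [RL]

theorem RL_append (u : ι → ℚ) (k : ℕ) (a : ι) (L L' : List ι) :
    RL u k a (L ++ L') = RL u k a L * RL u k a L' := by
  simp [RL]

theorem tt_RL (u : ι → ℚ) (k : ℕ) {p a : ι} (hpa : p ≠ a) :
    ∀ L : List ι, p ∉ L → Commute (tt p) (RL u k a L) := by
  intro L
  induction L with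
  | nil => intro _; exact Commute.one_right _
  | cons b L ih =>
    intro h
    rw [List.mem_cons, not_or] at h
    rw [RL_cons]
    exact Commute.mul_right (tt_R u k hpa h.1) (ih h.2)

theorem R_RL (u : ι → ℚ) (k : ℕ) {a b c : ι} (hac : a ≠ c) (hbc : b ≠ c) :
    ∀ L : List ι, a ∉ L → b ∉ L → Commute (R u k a b) (RL u k c L) := by
  intro L
  induction L with
  | nil => intro _ _; exact Commute.one_right _
  | cons d L ih =>
    intro h h'
    rw [List.mem_cons, not_or] at h h'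
    rw [RL_cons]
    exact Commute.mul_right (R_comm_R u k hac h.1 hbc h'.1) (ih h.2 h'.2)

theorem RL_RL (u : ι → ℚ) (k : ℕ) {a b : ι} (hab : a ≠ b) (L' : List ι) (ha : a ∉ L') :
    ∀ L : List ι, b ∉ L → (∀ x ∈ L, x ∉ L') → Commute (RL u k a L) (RL u k b L') := by
  intro L
  induction L with
  | nil => intro _ _; exact Commute.one_left _
  | cons d L ih =>
    intro h h'
    rw [List.mem_cons, not_or] at h
    rw [RL_cons]
    exact Commute.mul_left (R_RL u k hab (Ne.symm h.1) L' ha (h' d (by simp)))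
      (ih h.2 (fun x hx => h' x (by simp [hx])))

theorem YBL {u : ι → ℚ} (hu : Function.Injective u) (k : ℕ) {p q : ι} (hpq : p ≠ q) :
    ∀ L : List ι, p ∉ L → q ∉ L → L.Nodup →
      R u k q p * RL u k q L * RL u k p L = RL u k p L * RL u k q L * R u k q p := by
  intro L
  induction L with
  | nil => intro _ _ _; simp [RL_nil]
  | cons l L ih =>
    intro hp hq hn
    rw [List.mem_cons, not_or] at hp hq
    rw [List.nodup_cons] at hn
    have ih' := ih hp.2 hq.2 hn.2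
    have c1 : Commute (R u k p l) (RL u k q L) := R_RL u k hpq (Ne.symm hq.1) L hp.2 hn.1
    have c2 : Commute (R u k q l) (RL u k p L) := R_RL u k hpq.symm (Ne.symm hp.1) L hq.2 hn.1
    have y := YBE hu k (Ne.symm hpq) hq.1 hp.1
    rw [RL_cons, RL_cons]
    calc R u k q p * (R u k q l * RL u k q L) * (R u k p l * RL u k p L)
        = R u k q p * R u k q l * (RL u k q L * R u k p l) * RL u k p L := by
          simp only [mul_assoc]
      _ = R u k q p * R u k q l * R u k p l * RL u k q L * RL u k p L := by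
          rw [← c1.eq]; simp only [mul_assoc]
      _ = R u k p l * R u k q l * (R u k q p * RL u k q L * RL u k p L) := by
          rw [y]; simp only [mul_assoc]
      _ = R u k p l * (R u k q l * RL u k p L) * RL u k q L * R u k q p := by
          rw [ih']; simp only [mul_assoc]
      _ = _ := by rw [c2.eq]; simp only [mul_assoc]

/-- the purely algebraic part of the commutation proof -/
theorem comm_aux {M : Type*} [Monoid M] {Ap Bp Cp Aq Bq Cq r r' tp tq : M}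
    (h1 : r' * Aq * Ap = Ap * Aq * r') (h2 : r * Bp * Bq = Bq * Bp * r)
    (h3 : r * Cp * Cq = Cq * Cp * r) (h4 : r * r' = 1) (h4' : r' * r = 1)
    (h5 : Commute tp tq) (h6 : tp * tq * r = r * (tp * tq))
    (a1 : Commute tp Bq) (a3 : Commute tp Aq)
    (a2 : Commute tp Cq)
    (b1 : Commute tq Ap) (b2 : Commute tq Bp) (b3 : Commute tq Cp)
    (c1 : Commute Cp Bq) (c2 : Commute Cp Aq) (c3 : Commute Cq Ap) (c4 : Commute Bp Cq)
    (c5 : Commute Bp Aq) (c6 : Commute Bq Ap) :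
    (Ap * (r * Bp) * tp * Cp) * (Bq * tq * (Cq * (r' * Aq)))
      = (Bq * tq * (Cq * (r' * Aq))) * (Ap * (r * Bp) * tp * Cp) := by
  have L : (Ap * (r * Bp) * tp * Cp) * (Bq * tq * (Cq * (r' * Aq)))
      = Ap * Bq * Bp * tp * tq * Cq * Cp * Aq := by
    calc (Ap * (r * Bp) * tp * Cp) * (Bq * tq * (Cq * (r' * Aq)))
        = Ap * r * Bp * tp * (Cp * Bq) * tq * Cq * r' * Aq := by simp only [mul_assoc]
      _ = Ap * r * Bp * (tp * Bq) * (Cp * tq) * Cq * r' * Aq := by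
          rw [c1.eq]; simp only [mul_assoc]
      _ = Ap * (r * Bp * Bq) * (tp * tq) * Cp * Cq * r' * Aq := by
          rw [a1.eq, ← b3.eq]; simp only [mul_assoc]
      _ = Ap * Bq * Bp * (r * (tp * tq)) * Cp * Cq * r' * Aq := by
          rw [h2]; simp only [mul_assoc]
      _ = Ap * Bq * Bp * tp * tq * (r * Cp * Cq) * r' * Aq := by
          rw [← h6]; simp only [mul_assoc]
      _ = Ap * Bq * Bp * tp * tq * Cq * Cp * (r * r') * Aq := by
          rw [h3]; simp only [mul_assoc]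
      _ = _ := by rw [h4, mul_one]
  have Rr : (Bq * tq * (Cq * (r' * Aq))) * (Ap * (r * Bp) * tp * Cp)
      = Ap * Bq * Bp * tp * tq * Cq * Cp * Aq := by
    calc (Bq * tq * (Cq * (r' * Aq))) * (Ap * (r * Bp) * tp * Cp)
        = Bq * tq * Cq * (r' * Aq * Ap) * r * Bp * tp * Cp := by simp only [mul_assoc]
      _ = Bq * tq * (Cq * Ap) * Aq * (r' * r) * Bp * tp * Cp := by
          rw [h1]; simp only [mul_assoc]
      _ = Bq * (tq * Ap) * Cq * (Aq * Bp) * tp * Cp := by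
          rw [h4', mul_one, c3.eq]; simp only [mul_assoc]
      _ = (Bq * Ap) * tq * (Cq * Bp) * (Aq * tp) * Cp := by
          rw [b1.eq, ← c5.eq]; simp only [mul_assoc]
      _ = Ap * Bq * (tq * Bp) * (Cq * tp) * (Aq * Cp) := by
          rw [c6.eq, ← c4.eq, ← a3.eq]; simp only [mul_assoc]
      _ = Ap * Bq * Bp * (tq * tp) * Cq * Cp * Aq := by
          rw [b2.eq, ← a2.eq, ← c2.eq]; simp only [mul_assoc]
      _ = _ := by rw [← h5.eq]; simp only [mul_assoc]
  rw [L, Rr]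

theorem Yg_comm {u : ι → ℚ} (hu : Function.Injective u) (k : ℕ) (L₁ L₂ L₃ : List ι) (p q : ι)
    (hn : (L₁ ++ p :: (L₂ ++ q :: L₃)).Nodup) :
    Commute (Yg u k L₁ p (L₂ ++ q :: L₃)) (Yg u k (L₁ ++ p :: L₂) q L₃) := by
  rw [List.nodup_append] at hn
  obtain ⟨n1, n2, d1⟩ := hn
  rw [List.nodup_cons, List.mem_append, List.mem_cons] at n2
  push Not at n2
  obtain ⟨⟨hp2, hpq, hp3⟩, n3⟩ := n2
  rw [List.nodup_append] at n3
  obtain ⟨n4, n5, d2⟩ := n3
  rw [List.nodup_cons] at n5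
  obtain ⟨hq3, n6⟩ := n5
  have hp1 : p ∉ L₁ := fun e => d1 p e p (by simp) rfl
  have hq1 : q ∉ L₁ := fun e => d1 q e q (by simp) rfl
  have hq2 : q ∉ L₂ := fun e => d2 q e q (by simp) rfl
  have d12 : ∀ x ∈ L₁, x ∉ L₂ := fun x hx hx' => d1 x hx x (by simp [hx']) rfl
  have d13 : ∀ x ∈ L₁, x ∉ L₃ := fun x hx hx' => d1 x hx x (by simp [hx']) rfl
  have d23 : ∀ x ∈ L₂, x ∉ L₃ := fun x hx hx' => d2 x hx x (by simp [hx']) rfl
  have hqp : q ≠ p := Ne.symm hpq
  unfold Yg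
  rw [RL_append, RL_cons, RL_append, RL_cons]
  exact comm_aux (YBL hu k hpq L₂ hp2 hq2 n4) (YBL hu k hqp L₃ hq3 hp3 n6)
    (YBL hu k hqp L₁ hq1 hp1 n1) (R_mul_R hu k hpq) (R_mul_R hu k hqp) (tt_comm p q)
    (tt_tt_R u k hpq)
    (tt_RL u k hpq L₃ hp3) (tt_RL u k hpq L₂ hp2) (tt_RL u k hpq L₁ hp1)
    (tt_RL u k hqp L₂ hq2) (tt_RL u k hqp L₃ hq3) (tt_RL u k hqp L₁ hq1)
    (RL_RL u k hpq L₃ hp3 L₁ hq1 d13) (RL_RL u k hpq L₂ hp2 L₁ hq1 d12)
    (RL_RL u k hqp L₂ hq2 L₁ hp1 d12)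
    (RL_RL u k hpq L₁ hp1 L₃ hq3 (fun x hx hx' => d13 x hx' hx))
    (RL_RL u k hpq L₂ hp2 L₃ hq3 (fun x hx hx' => d23 x hx' hx))
    (RL_RL u k hqp L₂ hq2 L₃ hp3 (fun x hx hx' => d23 x hx' hx))

end Pool.Agent.T6.H58.RK
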