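import Mathlib
import Pool.Agent.T6.H58.RK.Comm

/-!
# Action on symmetric functions: the explicit formula
-/

namespace Pool.Agent.T6.H58.RK

variable {ι : Type*} [DecidableEq ι]

/-- increase the counters of all positions in `P` -/
def incS (P : Finset ι) (w : Cfg ι) : Cfg ι := (w.1, fun i => w.2 i + if i ∈ P then 1 else 0)

/-- the weight -/
def wt (u : ι → ℚ) (k : ℕ) (w : Cfg ι) (P Q : Finset ι) : ℚ :=
  ∏ p ∈ P, ∏ i ∈ Q, (1 - hf u k w p i)

/-- the explicit operators -/
def AA (u : ι → ℚ) (k : ℕ) (F : Cfg ι → ℚ) (S : Finset ι) (m : ℕ) : Cfg ι → ℚ :=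
  fun w => ∑ P ∈ S.powersetCard m, wt u k w P (S \ P) * F (incS P w)

/-- symmetric functions on configurations -/
def IsSymm (F : Cfg ι → ℚ) : Prop := ∀ i j w, F (sw i j w) = F w

/-- the auxiliary functions in the chain -/
def GG (u : ι → ℚ) (k : ℕ) (F : Cfg ι → ℚ) (I : Finset ι) (m : ℕ) (l : ι) : Cfg ι → ℚ :=
  fun w => ∑ P ∈ (I.erase l).powersetCard m,
    wt u k w P ((I.erase l) \ P) * F (incS (insert l P) w)

theorem wt_sw (u : ι → ℚ) (k : ℕ) (w : Cfg ι) (i j : ι) (P Q : Finset ι) :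
    wt u k (sw i j w) P Q
      = wt u k w (P.map (Equiv.swap i j).toEmbedding) (Q.map (Equiv.swap i j).toEmbedding) := by
  simp only [wt, Finset.prod_map, hf_sw, Equiv.coe_toEmbedding]

theorem incS_sw (w : Cfg ι) (i j : ι) (P : Finset ι) :
    incS P (sw i j w) = sw i j (incS (P.map (Equiv.swap i j).toEmbedding) w) := by
  simp only [incS, sw, Prod.mk.injEq, true_and]
  funext x
  simp only [Function.comp]
  congr 1
  have : (Equiv.swap i j x ∈ P.map (Equiv.swap i j).toEmbedding) ↔ x ∈ P := by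
    rw [Finset.mem_map_equiv]
    simp
  simp only [this]

theorem AA_sw (u : ι → ℚ) (k : ℕ) {F : Cfg ι → ℚ} (hF : IsSymm F) (S : Finset ι) (m : ℕ)
    (i j : ι) (w : Cfg ι) :
    AA u k F S m (sw i j w) = AA u k F (S.map (Equiv.swap i j).toEmbedding) m w := by
  unfold AA
  rw [Finset.powersetCard_map, Finset.sum_map]
  refine Finset.sum_congr rfl fun P _ => ?_
  simp only [wt_sw, incS_sw, hF i j, RelEmbedding.coe_toEmbedding, Finset.mapEmbedding_apply]
  congr 2
  ext x
  simp only [Finset.mem_map_equiv, Finset.mem_sdiff]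

theorem map_swap_of_notMem {S : Finset ι} {i j : ι} (hi : i ∉ S) (hj : j ∉ S) :
    S.map (Equiv.swap i j).toEmbedding = S := by
  ext x
  rw [Finset.mem_map_equiv, Equiv.symm_swap]
  by_cases hx : x = i
  · subst hx; simp [hi, hj]
  · by_cases hx' : x = j
    · subst hx'; simp [hi, hj]
    · rw [Equiv.swap_apply_of_ne_of_ne hx hx']

theorem map_swap_of_mem {S : Finset ι} {i j : ι} (hi : i ∈ S) (hj : j ∈ S) :
    S.map (Equiv.swap i j).toEmbedding = S := by
  ext x
  rw [Finset.mem_map_equiv, Equiv.symm_swap]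
  by_cases hx : x = i
  · subst hx; simp [hi, hj]
  · by_cases hx' : x = j
    · subst hx'; simp [hi, hj]
    · rw [Equiv.swap_apply_of_ne_of_ne hx hx']

theorem GG_sw (u : ι → ℚ) (k : ℕ) {F : Cfg ι → ℚ} (hF : IsSymm F) (I : Finset ι) (m : ℕ)
    {i j : ι} (hi : i ∈ I) (hj : j ∈ I) (l : ι) (w : Cfg ι) :
    GG u k F I m l (sw i j w) = GG u k F I m (Equiv.swap i j l) w := by
  unfold GG
  have hI : (I.erase l).map (Equiv.swap i j).toEmbedding = I.erase (Equiv.swap i j l) := by
    rw [Finset.map_erase, map_swap_of_mem hi hj]; rfl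
  rw [← hI, Finset.powersetCard_map, Finset.sum_map]
  refine Finset.sum_congr rfl fun P _ => ?_
  simp only [wt_sw, incS_sw, hF i j, RelEmbedding.coe_toEmbedding, Finset.mapEmbedding_apply,
    Finset.map_insert, Equiv.coe_toEmbedding]
  congr 2
  ext x
  simp only [Finset.mem_map_equiv, Finset.mem_sdiff]

theorem chain {u : ι → ℚ} (hu : Function.Injective u) (k : ℕ) (I : Finset ι)
    (G : ι → Cfg ι → ℚ)
    (hG : ∀ i ∈ I, ∀ j ∈ I, ∀ l, ∀ w, G l (sw i j w) = G (Equiv.swap i j l) w)
    {a : ι} (ha : a ∈ I) :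
    ∀ L : List ι, L.Nodup → a ∉ L → (∀ x ∈ L, x ∈ I) → ∀ w,
      RL u k a L (G a) w = (∏ i ∈ L.toFinset, (1 - hf u k w a i)) * G a w
        + ∑ l ∈ L.toFinset, hf u k w a l * (∏ i ∈ L.toFinset.erase l, (1 - hf u k w l i))
            * G l w := by
  intro L
  induction L with
  | nil => intro _ _ _ w; simp [RL_nil]
  | cons j L ih =>
    intro hn haL hLI w
    rw [List.nodup_cons] at hn
    rw [List.mem_cons, not_or] at haL
    have haj : a ≠ j := haL.1
    have hjI : j ∈ I := hLI j (by simp)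
    have ih' := ih hn.2 haL.2 (fun x hx => hLI x (by simp [hx]))
    have hjT : j ∉ L.toFinset := by simpa using hn.1
    have haT : a ∉ L.toFinset := by simpa using haL.2
    have hYB := hf_YB hu k w
    rw [RL_cons, Module.End.mul_apply, R_apply, ih' w, ih' (sw a j w), List.toFinset_cons]
    rw [Finset.prod_insert hjT, Finset.sum_insert hjT, Finset.erase_insert hjT]
    have e1 : ∏ i ∈ L.toFinset, (1 - hf u k (sw a j w) a i)
        = ∏ i ∈ L.toFinset, (1 - hf u k w j i) := by
      refine Finset.prod_congr rfl fun i hi => ?_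
      have hi1 : i ≠ a := fun e => haT (e ▸ hi)
      have hi2 : i ≠ j := fun e => hjT (e ▸ hi)
      rw [hf_sw, Equiv.swap_apply_left, Equiv.swap_apply_of_ne_of_ne hi1 hi2]
    have e2 : ∑ l ∈ L.toFinset, hf u k (sw a j w) a l
          * (∏ i ∈ L.toFinset.erase l, (1 - hf u k (sw a j w) l i)) * G l (sw a j w)
        = ∑ l ∈ L.toFinset, hf u k w j l
          * (∏ i ∈ L.toFinset.erase l, (1 - hf u k w l i)) * G l w := by
      refine Finset.sum_congr rfl fun l hl => ?_
      have hl1 : l ≠ a := fun e => haT (e ▸ hl)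
      have hl2 : l ≠ j := fun e => hjT (e ▸ hl)
      rw [hG a ha j hjI, hf_sw, Equiv.swap_apply_left, Equiv.swap_apply_of_ne_of_ne hl1 hl2]
      congr 2
      refine Finset.prod_congr rfl fun i hi => ?_
      have hi' := Finset.mem_of_mem_erase hi
      have hi1 : i ≠ a := fun e => haT (e ▸ hi')
      have hi2 : i ≠ j := fun e => hjT (e ▸ hi')
      rw [hf_sw, Equiv.swap_apply_of_ne_of_ne hl1 hl2, Equiv.swap_apply_of_ne_of_ne hi1 hi2]
    have e3 : ∑ l ∈ L.toFinset, hf u k w a l
          * (∏ i ∈ (insert j L.toFinset).erase l, (1 - hf u k w l i)) * G l w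
        = (1 - hf u k w a j) * (∑ l ∈ L.toFinset, hf u k w a l
          * (∏ i ∈ L.toFinset.erase l, (1 - hf u k w l i)) * G l w)
          + hf u k w a j * ∑ l ∈ L.toFinset, hf u k w j l
          * (∏ i ∈ L.toFinset.erase l, (1 - hf u k w l i)) * G l w := by
      rw [Finset.mul_sum, Finset.mul_sum, ← Finset.sum_add_distrib]
      refine Finset.sum_congr rfl fun l hl => ?_
      have hl1 : a ≠ l := fun e => haT (e ▸ hl)
      have hl2 : l ≠ j := fun e => hjT (e ▸ hl)
      have he : (insert j L.toFinset).erase l = insert j (L.toFinset.erase l) := by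
        rw [Finset.erase_insert_of_ne (Ne.symm hl2)]
      rw [he, Finset.prod_insert (fun e => hjT (Finset.mem_of_mem_erase e))]
      have h1 := hYB.anti l j hl2
      have h2 := hYB.yb a l j hl1 hl2 haj
      rw [h1]
      linear_combination (-(∏ i ∈ L.toFinset.erase l, (1 - hf u k w l i)) * G l w) * h2
    rw [e1, e2, e3, hG a ha j hjI, Equiv.swap_apply_left]
    ring

end Pool.Agent.T6.H58.RK
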