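import Mathlib
import Pool.Agent.T6.H58.RK.Chain

/-!
# `Y_a` acts on the explicit functions
-/

namespace Pool.Agent.T6.H58.RK

variable {ι : Type*} [DecidableEq ι]

theorem RL_fix (u : ι → ℚ) (k : ℕ) (a : ι) (X : Cfg ι → ℚ) :
    ∀ L : List ι, (∀ l ∈ L, ∀ w, X (sw a l w) = X w) → RL u k a L X = X := by
  intro L
  induction L with
  | nil => intro _; simp [RL_nil]
  | cons b L ih =>
    intro h
    rw [RL_cons, Module.End.mul_apply, ih (fun l hl => h l (by simp [hl]))]
    funext w
    rw [R_apply, h b (by simp)]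
    ring

theorem tt_AA (u : ι → ℚ) (k : ℕ) (F : Cfg ι → ℚ) (S : Finset ι) (a : ι) (ha : a ∉ S) (m : ℕ) :
    tt a (AA u k F S m) = GG u k F (insert a S) m a := by
  funext w
  rw [tt_apply]
  unfold AA GG
  rw [Finset.erase_insert ha]
  refine Finset.sum_congr rfl fun P hP => ?_
  have hPS := (Finset.mem_powersetCard.1 hP).1
  have haP : a ∉ P := fun e => ha (hPS e)
  congr 1
  · unfold wt
    refine Finset.prod_congr rfl fun p hp => Finset.prod_congr rfl fun i hi => ?_
    have h1 : a ≠ p := fun e => haP (e ▸ hp)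
    have h2 : a ≠ i := fun e => ha (e ▸ (Finset.mem_sdiff.1 hi).1)
    rw [hf_inc u k w h1 h2]
  · congr 1
    simp only [incS, inc, Prod.mk.injEq, true_and]
    funext i
    by_cases hi : i = a
    · subst hi; simp [haP]
    · simp [hi]

/-- the coefficient identity -/
theorem coef_id {h : ι → ι → ℚ} (hh : YB h) (S : Finset ι) (a : ι) (ha : a ∉ S)
    (P : Finset ι) (hP : P ⊆ insert a S) :
    ∑ l ∈ P, (if l = a then ∏ i ∈ S, (1 - h a i)
        else h a l * ∏ i ∈ S.erase l, (1 - h l i)) *
        ∏ p ∈ P.erase l, ∏ i ∈ insert a S \ P, (1 - h p i)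
      = ∏ p ∈ P, ∏ i ∈ insert a S \ P, (1 - h p i)
        - if a ∈ P then 0 else ∏ p ∈ P, ∏ i ∈ S \ P, (1 - h p i) := by
  by_cases haP : a ∈ P
  · rw [if_pos haP, sub_zero]
    set T := P.erase a with hT
    set Q := insert a S \ P with hQ
    have hPT : P = insert a T := (Finset.insert_erase haP).symm
    have haT : a ∉ T := Finset.notMem_erase a P
    have hTS : T ⊆ S := by
      intro x hx
      have h1 := Finset.mem_of_mem_erase hx
      have h2 := hP h1
      rw [Finset.mem_insert] at h2
      rcases h2 with h2 | h2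
      · exact absurd h2 (Finset.ne_of_mem_erase hx)
      · exact h2
    have hQS : Q = S \ T := by
      rw [hQ, hPT]
      ext x
      simp only [Finset.mem_sdiff, Finset.mem_insert, not_or]
      constructor
      · rintro ⟨h1 | h1, h2, h3⟩
        · exact absurd h1 h2
        · exact ⟨h1, h3⟩
      · rintro ⟨h1, h2⟩
        exact ⟨Or.inr h1, fun e => ha (e ▸ h1), h2⟩
    have hdisj : Disjoint T Q := by rw [hQS]; exact Finset.disjoint_sdiff
    have hS : S = T ∪ Q := by rw [hQS, Finset.union_sdiff_of_subset hTS]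
    have hsum : ∑ l ∈ P, (if l = a then ∏ i ∈ S, (1 - h a i)
        else h a l * ∏ i ∈ S.erase l, (1 - h l i)) * ∏ p ∈ P.erase l, ∏ i ∈ Q, (1 - h p i)
        = (∏ p ∈ P, ∏ i ∈ Q, (1 - h p i)) * (∏ i ∈ T, (1 - h a i)
          + ∑ l ∈ T, h a l * ∏ i ∈ T.erase l, (1 - h l i)) := by
      conv_lhs => rw [hPT]
      rw [Finset.sum_insert haT, if_pos rfl, Finset.erase_insert haT, mul_add]
      congr 1
      · rw [hS, Finset.prod_union hdisj]
        conv_rhs => rw [hPT, Finset.prod_insert haT]
        ring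
      · rw [Finset.mul_sum]
        refine Finset.sum_congr rfl fun l hl => ?_
        have hla : l ≠ a := fun e => haT (e ▸ hl)
        have hlQ : l ∉ Q := Finset.disjoint_left.1 hdisj hl
        have hlP : l ∈ insert a T := Finset.mem_insert_of_mem hl
        rw [if_neg hla, hPT, ← Finset.mul_prod_erase (insert a T) _ hlP]
        have he : S.erase l = T.erase l ∪ Q := by
          rw [hS, Finset.erase_union_distrib, Finset.erase_eq_of_notMem hlQ]
        rw [he, Finset.prod_union (Finset.disjoint_of_subset_left (Finset.erase_subset _ _) hdisj)]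
        ring
    rw [hsum, sum_one hh T a haT, mul_one]
  · rw [if_neg haP]
    have hPS : P ⊆ S := by
      intro x hx
      have h2 := hP hx
      rw [Finset.mem_insert] at h2
      rcases h2 with h2 | h2
      · exact absurd (h2 ▸ hx) haP
      · exact h2
    have hQ : insert a S \ P = insert a (S \ P) := by
      rw [Finset.insert_sdiff_of_notMem _ haP]
    have haQ : a ∉ S \ P := fun e => ha (Finset.mem_sdiff.1 e).1
    have hprod : ∀ P' : Finset ι, ∏ p ∈ P', ∏ i ∈ insert a S \ P, (1 - h p i)
        = (∏ p ∈ P', (1 - h p a)) * ∏ p ∈ P', ∏ i ∈ S \ P, (1 - h p i) := by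
      intro P'
      rw [hQ, ← Finset.prod_mul_distrib]
      refine Finset.prod_congr rfl fun p _ => ?_
      rw [Finset.prod_insert haQ]
    have hdisj : Disjoint P (S \ P) := Finset.disjoint_sdiff
    have hS : S = P ∪ (S \ P) := by rw [Finset.union_sdiff_of_subset hPS]
    have hsum : ∑ l ∈ P, (if l = a then ∏ i ∈ S, (1 - h a i)
        else h a l * ∏ i ∈ S.erase l, (1 - h l i)) *
          ∏ p ∈ P.erase l, ∏ i ∈ insert a S \ P, (1 - h p i)
        = (∏ p ∈ P, ∏ i ∈ S \ P, (1 - h p i)) *
          ∑ l ∈ P, h a l * ∏ i ∈ P.erase l, ((1 - h l i) * (1 - h i a)) := by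
      rw [Finset.mul_sum]
      refine Finset.sum_congr rfl fun l hl => ?_
      have hla : l ≠ a := fun e => haP (e ▸ hl)
      have hlQ : l ∉ S \ P := Finset.disjoint_left.1 hdisj hl
      have he : S.erase l = P.erase l ∪ (S \ P) := by
        conv_lhs => rw [hS]
        rw [Finset.erase_union_distrib, Finset.erase_eq_of_notMem hlQ]
      rw [if_neg hla, hprod, ← Finset.mul_prod_erase P
        (fun p => ∏ i ∈ S \ P, (1 - h p i)) hl, he,
        Finset.prod_union (Finset.disjoint_of_subset_left (Finset.erase_subset _ _) hdisj),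
        Finset.prod_mul_distrib]
      ring
    rw [hsum, sum_two hh P a haP, hprod]
    ring

/-- reorganising the sum over `l` and subsets not containing `l` -/
theorem sum_reorg (I : Finset ι) (m : ℕ) (c : ι → Finset ι → ℚ) :
    ∑ l ∈ I, ∑ P ∈ (I.erase l).powersetCard m, c l P
      = ∑ P ∈ I.powersetCard (m + 1), ∑ l ∈ P, c l (P.erase l) := by
  rw [Finset.sum_sigma', Finset.sum_sigma']
  refine Finset.sum_bij' (fun x _ => ⟨insert x.1 x.2, x.1⟩) (fun x _ => ⟨x.2, x.1.erase x.2⟩)
    ?_ ?_ ?_ ?_ ?_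
  · rintro ⟨l, P⟩ hx
    simp only [Finset.mem_sigma, Finset.mem_powersetCard] at hx ⊢
    obtain ⟨hl, hP, hc⟩ := hx
    have hlP : l ∉ P := fun e => (Finset.notMem_erase l I) (hP e)
    refine ⟨⟨?_, ?_⟩, Finset.mem_insert_self l P⟩
    · intro x hx
      rcases Finset.mem_insert.1 hx with h | h
      · exact h ▸ hl
      · exact Finset.mem_of_mem_erase (hP h)
    · rw [Finset.card_insert_of_notMem hlP, hc]
  · rintro ⟨P, l⟩ hx
    simp only [Finset.mem_sigma, Finset.mem_powersetCard] at hx ⊢
    obtain ⟨⟨hP, hc⟩, hl⟩ := hx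
    refine ⟨hP hl, Finset.erase_subset_erase _ hP, ?_⟩
    rw [Finset.card_erase_of_mem hl, hc]; rfl
  · rintro ⟨l, P⟩ hx
    simp only [Finset.mem_sigma, Finset.mem_powersetCard] at hx ⊢
    obtain ⟨hl, hP, hc⟩ := hx
    have hlP : l ∉ P := fun e => (Finset.notMem_erase l I) (hP e)
    simp [Finset.erase_insert hlP]
  · rintro ⟨P, l⟩ hx
    simp only [Finset.mem_sigma, Finset.mem_powersetCard] at hx ⊢
    obtain ⟨⟨hP, hc⟩, hl⟩ := hx
    simp [Finset.insert_erase hl]
  · rintro ⟨l, P⟩ hx
    simp only [Finset.mem_sigma, Finset.mem_powersetCard] at hx ⊢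
    obtain ⟨hl, hP, hc⟩ := hx
    have hlP : l ∉ P := fun e => (Finset.notMem_erase l I) (hP e)
    rw [Finset.erase_insert hlP]

theorem Yg_AA {u : ι → ℚ} (hu : Function.Injective u) (k : ℕ) (L₁ : List ι) (a : ι)
    (L₂ : List ι) (hn : (L₁ ++ a :: L₂).Nodup) {F : Cfg ι → ℚ} (hF : IsSymm F) (m : ℕ) :
    Yg u k L₁ a L₂ (AA u k F L₂.toFinset m)
      = AA u k F (insert a L₂.toFinset) (m + 1) - AA u k F L₂.toFinset (m + 1) := by
  rw [List.nodup_append] at hn
  obtain ⟨n1, n2, d1⟩ := hn
  rw [List.nodup_cons] at n2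
  obtain ⟨ha2, n3⟩ := n2
  have d12 : ∀ x ∈ L₁, x ∉ L₂ := fun x hx hx' => d1 x hx x (by simp [hx']) rfl
  set S := L₂.toFinset with hS
  have haS : a ∉ S := by rw [hS]; simpa using ha2
  set I := insert a S with hI
  have haI : a ∈ I := Finset.mem_insert_self a S
  have e0 : RL u k a L₁ (AA u k F S m) = AA u k F S m := by
    apply RL_fix
    intro l hl w
    rw [AA_sw u k hF, map_swap_of_notMem haS]
    rw [hS]; simpa using d12 l hl
  unfold Yg
  rw [Module.End.mul_apply, Module.End.mul_apply, e0, tt_AA u k F S a haS]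
  · funext w
    have hch := chain hu k I (GG u k F I m)
      (fun i hi j hj l w => GG_sw u k hF I m hi hj l w) haI L₂ n3 ha2
      (fun x hx => Finset.mem_insert_of_mem (by rw [hS]; simpa using hx)) w
    rw [hch, ← hS, Pi.sub_apply]
    -- rewrite as one sum over `I`
    have hYB := hf_YB hu k w
    have e1 : (∏ i ∈ S, (1 - hf u k w a i)) * GG u k F I m a w
        + ∑ l ∈ S, hf u k w a l * (∏ i ∈ S.erase l, (1 - hf u k w l i)) * GG u k F I m l w
        = ∑ l ∈ I, (if l = a then ∏ i ∈ S, (1 - hf u k w a i)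
          else hf u k w a l * ∏ i ∈ S.erase l, (1 - hf u k w l i)) * GG u k F I m l w := by
      rw [hI, Finset.sum_insert haS, if_pos rfl]
      congr 1
      refine Finset.sum_congr rfl fun l hl => ?_
      have hla : l ≠ a := fun e => haS (e ▸ hl)
      rw [if_neg hla]
    rw [e1]
    simp only [GG, Finset.mul_sum]
    rw [sum_reorg I m]
    have e2 : AA u k F S (m + 1) w = ∑ P ∈ I.powersetCard (m + 1),
        (if a ∈ P then 0 else wt u k w P (S \ P)) * F (incS P w) := by
      unfold AA
      symm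
      refine Finset.sum_subset_zero_on_sdiff ?_ ?_ ?_ |>.symm
      · exact Finset.powersetCard_mono (Finset.subset_insert a S)
      · intro P hP
        rw [Finset.mem_sdiff, Finset.mem_powersetCard, Finset.mem_powersetCard] at hP
        obtain ⟨⟨h1, h2⟩, h3⟩ := hP
        have : a ∈ P := by
          by_contra haP
          apply h3
          refine ⟨?_, h2⟩
          intro x hx
          rcases Finset.mem_insert.1 (h1 hx) with h | h
          · exact absurd (h ▸ hx) haP
          · exact h
        rw [if_pos this, zero_mul]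
      · intro P hP
        have hPS := (Finset.mem_powersetCard.1 hP).1
        rw [if_neg (fun e => haS (hPS e))]
    rw [e2]
    unfold AA
    rw [← Finset.sum_sub_distrib]
    refine Finset.sum_congr rfl fun P hP => ?_
    have hPI := (Finset.mem_powersetCard.1 hP).1
    have hc := coef_id hYB S a haS P hPI
    rw [← sub_mul]
    have : wt u k w P (I \ P) - (if a ∈ P then 0 else wt u k w P (S \ P))
        = ∑ l ∈ P, (if l = a then ∏ i ∈ S, (1 - hf u k w a i)
        else hf u k w a l * ∏ i ∈ S.erase l, (1 - hf u k w l i)) *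
        ∏ p ∈ P.erase l, ∏ i ∈ insert a S \ P, (1 - hf u k w p i) := hc.symm
    rw [this, Finset.sum_mul]
    refine Finset.sum_congr rfl fun l hl => ?_
    have hlI : l ∈ I := hPI hl
    have e3 : I.erase l \ P.erase l = insert a S \ P := by
      rw [← hI]
      ext x
      simp only [Finset.mem_sdiff, Finset.mem_erase, not_and]
      constructor
      · rintro ⟨⟨h1, h2⟩, h3⟩
        exact ⟨h2, h3 h1⟩
      · rintro ⟨h1, h2⟩
        exact ⟨⟨fun e => h2 (e ▸ hl), h1⟩, fun _ => h2⟩
    rw [e3, Finset.insert_erase hl]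
    unfold wt
    ring

end Pool.Agent.T6.H58.RK
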