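import Mathlib
import Pool.Agent.T6.H58.RK.Step

/-!
# Evaluation of polynomials at the commuting operators
-/

namespace Pool.Agent.T6.H58.RK

open MvPolynomial

/-- evaluation of polynomials at commuting elements of a ring -/
theorem exists_eval {σ A : Type*} [Ring A] [Algebra ℚ A] (Y : σ → A)
    (hY : ∀ i j, Commute (Y i) (Y j)) :
    ∃ Φ : MvPolynomial σ ℚ →ₐ[ℚ] A, ∀ i, Φ (X i) = Y i := by
  have hc : ∀ a ∈ Set.range Y, ∀ b ∈ Set.range Y, a * b = b * a := by
    rintro _ ⟨i, rfl⟩ _ ⟨j, rfl⟩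
    exact hY i j
  letI : CommRing (Algebra.adjoin ℚ (Set.range Y)) := Algebra.adjoinCommRingOfComm ℚ hc
  refine ⟨(Algebra.adjoin ℚ (Set.range Y)).val.comp
    (aeval (fun i => (⟨Y i, Algebra.subset_adjoin ⟨i, rfl⟩⟩ : Algebra.adjoin ℚ (Set.range Y)))), ?_⟩
  intro i
  rw [AlgHom.comp_apply, aeval_X]
  rfl

variable {ι : Type*} [DecidableEq ι]

/-- elementary symmetric polynomial of a subset of the variables -/
noncomputable def eS (S : Finset ι) (m : ℕ) : MvPolynomial ι ℚ :=
  ∑ P ∈ S.powersetCard m, ∏ p ∈ P, X p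

theorem eS_zero (S : Finset ι) : eS S 0 = 1 := by simp [eS]

theorem eS_empty (m : ℕ) : eS (∅ : Finset ι) (m + 1) = 0 := by
  unfold eS
  rw [Finset.powersetCard_eq_empty.2 (by simp)]
  simp

theorem eS_insert {S : Finset ι} {a : ι} (ha : a ∉ S) (m : ℕ) :
    eS (insert a S) (m + 1) = eS S (m + 1) + X a * eS S m := by
  unfold eS
  rw [← Nat.succ_eq_add_one, Finset.powersetCard_succ_insert ha, Finset.sum_union]
  · congr 1
    rw [Finset.sum_image, Finset.mul_sum]
    · refine Finset.sum_congr rfl fun P hP => ?_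
      have hPS := (Finset.mem_powersetCard.1 hP).1
      rw [Finset.prod_insert (fun e => ha (hPS e))]
    · intro P hP P' hP' h
      have hPS := (Finset.mem_powersetCard.1 hP).1
      have hPS' := (Finset.mem_powersetCard.1 hP').1
      have h1 : (insert a P).erase a = (insert a P').erase a := by
        have h' : insert a P = insert a P' := h
        rw [h']
      rwa [Finset.erase_insert (fun e => ha (hPS e)),
        Finset.erase_insert (fun e => ha (hPS' e))] at h1
  · rw [Finset.disjoint_left]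
    intro P hP hP'
    rw [Finset.mem_image] at hP'
    obtain ⟨P', _, rfl⟩ := hP'
    exact ha ((Finset.mem_powersetCard.1 hP).1 (Finset.mem_insert_self a P'))

theorem AA_zero (u : ι → ℚ) (k : ℕ) (F : Cfg ι → ℚ) (S : Finset ι) : AA u k F S 0 = F := by
  funext w
  simp [AA, wt, incS]

theorem AA_empty (u : ι → ℚ) (k : ℕ) (F : Cfg ι → ℚ) (m : ℕ) : AA u k F ∅ (m + 1) = 0 := by
  funext w
  unfold AA
  rw [Finset.powersetCard_eq_empty.2 (by simp)]
  simp

/-- the operators attached to a total order given by a list -/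
def YL (u : ι → ℚ) (k : ℕ) (L : List ι) (a : ι) : Module.End ℚ (Cfg ι → ℚ) :=
  Yg u k (L.takeWhile (fun x => decide (x ≠ a))) a (L.dropWhile (fun x => decide (x ≠ a))).tail

theorem YL_eq (u : ι → ℚ) (k : ℕ) (a : ι) (L₂ : List ι) : ∀ L₁ : List ι, a ∉ L₁ →
    YL u k (L₁ ++ a :: L₂) a = Yg u k L₁ a L₂ := by
  intro L₁ h
  have h1 : ∀ L₁ : List ι, a ∉ L₁ →
      (L₁ ++ a :: L₂).takeWhile (fun x => decide (x ≠ a)) = L₁ := by
    intro L₁
    induction L₁ with
    | nil => intro _; simp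
    | cons b L ih =>
      intro h
      rw [List.mem_cons, not_or] at h
      rw [List.cons_append, List.takeWhile_cons_of_pos (by simpa using Ne.symm h.1), ih h.2]
  have h2 : ∀ L₁ : List ι, a ∉ L₁ →
      (L₁ ++ a :: L₂).dropWhile (fun x => decide (x ≠ a)) = a :: L₂ := by
    intro L₁
    induction L₁ with
    | nil => intro _; simp
    | cons b L ih =>
      intro h
      rw [List.mem_cons, not_or] at h
      rw [List.cons_append, List.dropWhile_cons_of_pos (by simpa using Ne.symm h.1), ih h.2]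
  unfold YL
  rw [h1 L₁ h, h2 L₁ h]
  rfl

theorem YL_comm {u : ι → ℚ} (hu : Function.Injective u) (k : ℕ) (L : List ι) (hn : L.Nodup)
    (hL : ∀ a, a ∈ L) (p q : ι) : Commute (YL u k L p) (YL u k L q) := by
  -- decompose the list
  have key : ∀ p q, (∃ L₁ L₂ L₃, L = L₁ ++ p :: (L₂ ++ q :: L₃)) →
      Commute (YL u k L p) (YL u k L q) := by
    rintro p q ⟨L₁, L₂, L₃, h⟩
    have hn' := hn
    rw [h] at hn'
    have hc := Yg_comm hu k L₁ L₂ L₃ p q hn'
    have e1 : YL u k L p = Yg u k L₁ p (L₂ ++ q :: L₃) := by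
      rw [h]
      apply YL_eq
      intro hp
      rw [List.nodup_append] at hn'
      exact hn'.2.2 p hp p (by simp) rfl
    have e2 : YL u k L q = Yg u k (L₁ ++ p :: L₂) q L₃ := by
      have h' : L = (L₁ ++ p :: L₂) ++ q :: L₃ := by rw [h]; simp
      rw [h']
      apply YL_eq
      intro hq
      rw [← h, h', List.nodup_append] at hn'
      exact hn'.2.2 q hq q (by simp) rfl
    rw [e1, e2]
    exact hc
  by_cases hpq : p = q
  · subst hpq; exact Commute.refl _
  · obtain ⟨L₁, L', h⟩ := List.append_of_mem (hL p)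
    have hq := hL q
    rw [h, List.mem_append, List.mem_cons] at hq
    rcases hq with hq | hq | hq
    · obtain ⟨M₁, M₂, h'⟩ := List.append_of_mem hq
      refine (key q p ⟨M₁, M₂, L', ?_⟩).symm
      rw [h, h']; simp
    · exact absurd hq.symm hpq
    · obtain ⟨M₁, M₂, h'⟩ := List.append_of_mem hq
      exact key p q ⟨L₁, M₁, M₂, by rw [h, h']⟩

theorem Phi_eS {u : ι → ℚ} (hu : Function.Injective u) (k : ℕ) (L : List ι) (hn : L.Nodup)
    (Φ : MvPolynomial ι ℚ →ₐ[ℚ] Module.End ℚ (Cfg ι → ℚ)) (hΦ : ∀ i, Φ (X i) = YL u k L i)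
    {F : Cfg ι → ℚ} (hF : IsSymm F) :
    ∀ L₂ L₁ : List ι, L = L₁ ++ L₂ → ∀ m, Φ (eS L₂.toFinset m) F = AA u k F L₂.toFinset m := by
  intro L₂
  induction L₂ with
  | nil =>
    intro L₁ _ m
    rcases m with _ | m
    · rw [eS_zero, AA_zero, map_one]; rfl
    · rw [List.toFinset_nil, eS_empty, AA_empty, map_zero]; rfl
  | cons a L₂ ih =>
    intro L₁ h m
    have hn' := hn
    rw [h] at hn'
    have haL₁ : a ∉ L₁ := by
      intro ha
      rw [List.nodup_append] at hn'
      exact hn'.2.2 a ha a (by simp) rfl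
    have haL₂ : a ∉ L₂.toFinset := by
      rw [List.nodup_append, List.nodup_cons] at hn'
      simpa using hn'.2.1.1
    have ih' := ih (L₁ ++ [a]) (by rw [h]; simp)
    rcases m with _ | m
    · rw [eS_zero, AA_zero, map_one]; rfl
    · rw [List.toFinset_cons, eS_insert haL₂, map_add, map_mul, hΦ, LinearMap.add_apply,
        Module.End.mul_apply, ih', ih']
      have e1 : YL u k L a = Yg u k L₁ a L₂ := by rw [h]; exact YL_eq u k a L₂ L₁ haL₁
      rw [e1, Yg_AA hu k L₁ a L₂ hn' hF m]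
      abel

theorem Phi_esymm [Fintype ι] {u : ι → ℚ} (hu : Function.Injective u) (k : ℕ) (L : List ι)
    (hn : L.Nodup) (hL : ∀ a, a ∈ L)
    (Φ : MvPolynomial ι ℚ →ₐ[ℚ] Module.End ℚ (Cfg ι → ℚ)) (hΦ : ∀ i, Φ (X i) = YL u k L i)
    {F : Cfg ι → ℚ} (hF : IsSymm F) (m : ℕ) :
    Φ (esymm ι ℚ m) F = AA u k F Finset.univ m := by
  have h := Phi_eS hu k L hn Φ hΦ hF L [] rfl m
  have hu : L.toFinset = Finset.univ := by
    ext a; simp [hL a]
  rw [hu] at h
  exact h

theorem IsSymm_AA [Fintype ι] (u : ι → ℚ) (k : ℕ) {F : Cfg ι → ℚ} (hF : IsSymm F) (m : ℕ) :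
    IsSymm (AA u k F Finset.univ m) := by
  intro i j w
  rw [AA_sw u k hF, map_swap_of_mem (Finset.mem_univ i) (Finset.mem_univ j)]

end Pool.Agent.T6.H58.RK
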