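import Mathlib
import Pool.Agent.T6.H58.RK.Phi

/-!
# Colours: comparison of the operators for `k` and for `1`
-/

namespace Pool.Agent.T6.H58.RK

open MvPolynomial

variable {ι : Type*} [DecidableEq ι]

/-- `f` is supported on configurations whose counters are congruent to `δ` modulo `k` -/
def Supp (k : ℕ) (δ : ι → ℤ) (f : Cfg ι → ℚ) : Prop :=
  ∀ w, (∃ x, ¬ (k : ℤ) ∣ w.2 x - δ x) → f w = 0

omit [DecidableEq ι] in
theorem Supp_congr {k : ℕ} {δ δ' : ι → ℤ} (h : ∀ x, (k : ℤ) ∣ δ x - δ' x) {f : Cfg ι → ℚ}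
    (hf : Supp k δ f) : Supp k δ' f := by
  rintro w ⟨x, hx⟩
  apply hf w
  refine ⟨x, fun hd => hx ?_⟩
  have := dvd_add hd (h x)
  rwa [sub_add_sub_cancel] at this

/-- if the colours of two positions agree, swapping them does not change the colours -/
theorem dvd_swap {k : ℕ} {c : ι → ℤ} {i j : ι} (h : (k : ℤ) ∣ c i - c j) (x : ι) :
    (k : ℤ) ∣ c (Equiv.swap i j x) - c x := by
  by_cases hx : x = i
  · subst hx; rw [Equiv.swap_apply_left, ← dvd_neg]; simpa using h
  · by_cases hx' : x = j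
    · subst hx'; rw [Equiv.swap_apply_right]; exact h
    · rw [Equiv.swap_apply_of_ne_of_ne hx hx']; simp

omit [DecidableEq ι] in
theorem hf_of_not_dvd (u : ι → ℚ) {k : ℕ} {w : Cfg ι} {i j : ι}
    (h : ¬ (k : ℤ) ∣ w.2 i - w.2 j) : hf u k w i j = 0 := by
  unfold hf
  rw [if_neg h]

theorem Supp_R (u : ι → ℚ) (k : ℕ) {δ : ι → ℤ} {f : Cfg ι → ℚ} (hf : Supp k δ f) (i j : ι) :
    Supp k δ (R u k i j f) := by
  rintro w ⟨x, hx⟩
  rw [R_apply, hf w ⟨x, hx⟩]
  by_cases h : (k : ℤ) ∣ w.2 i - w.2 j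
  · rw [hf (sw i j w)]
    · ring
    · refine ⟨x, fun hd => hx ?_⟩
      have h1 := dvd_swap h x
      have h2 : (k : ℤ) ∣ w.2 (Equiv.swap i j x) - δ x := hd
      have := dvd_sub h2 h1
      rwa [sub_sub_sub_cancel_left] at this
  · rw [hf_of_not_dvd u h]
    ring

theorem Supp_RL (u : ι → ℚ) (k : ℕ) {δ : ι → ℤ} (a : ι) :
    ∀ L : List ι, ∀ {f : Cfg ι → ℚ}, Supp k δ f → Supp k δ (RL u k a L f) := by
  intro L
  induction L with
  | nil => intro f hf; simpa [RL_nil] using hf
  | cons b L ih =>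
    intro f hf
    rw [RL_cons, Module.End.mul_apply]
    exact Supp_R u k (ih hf) a b

theorem R_trivial (u : ι → ℚ) (k : ℕ) {δ : ι → ℤ} {f : Cfg ι → ℚ} (hf : Supp k δ f) {i j : ι}
    (h : ¬ (k : ℤ) ∣ δ i - δ j) : R u k i j f = f := by
  funext w
  rw [R_apply]
  by_cases hc : (k : ℤ) ∣ w.2 i - w.2 j
  · have h1 : f w = 0 := by
      apply hf
      by_contra hcon
      push Not at hcon
      apply h
      have := dvd_sub (dvd_sub hc (hcon i)) (dvd_neg.2 (hcon j))
      have e : w.2 i - w.2 j - (w.2 i - δ i) - -(w.2 j - δ j) = δ i - δ j := by ring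
      rwa [e] at this
    have h2 : f (sw i j w) = 0 := by
      apply hf
      by_contra hcon
      push Not at hcon
      apply h
      have e1 := hcon i
      have e2 := hcon j
      simp only [sw, Function.comp, Equiv.swap_apply_left, Equiv.swap_apply_right] at e1 e2
      have := dvd_sub (dvd_sub (dvd_neg.2 hc) e1) (dvd_neg.2 e2)
      have e : -(w.2 i - w.2 j) - (w.2 j - δ i) - -(w.2 i - δ j) = δ i - δ j := by ring
      rwa [e] at this
    rw [h1, h2]; ring
  · rw [hf_of_not_dvd u hc]; ring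

theorem RL_trivial (u : ι → ℚ) (k : ℕ) {δ : ι → ℤ} {f : Cfg ι → ℚ} (hf : Supp k δ f) {a : ι} :
    ∀ L : List ι, (∀ l ∈ L, ¬ (k : ℤ) ∣ δ a - δ l) → RL u k a L f = f := by
  intro L
  induction L with
  | nil => intro _; simp [RL_nil]
  | cons b L ih =>
    intro h
    rw [RL_cons, Module.End.mul_apply, ih (fun l hl => h l (by simp [hl]))]
    exact R_trivial u k hf (h b (by simp))

theorem tt_pow_apply (p : ι) (f : Cfg ι → ℚ) : ∀ (m : ℕ) (w : Cfg ι),
    (tt p ^ m) f w = f (w.1, fun i => w.2 i + if i = p then (m : ℤ) else 0) := by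
  intro m
  induction m with
  | zero => intro w; simp
  | succ m ih =>
    intro w
    rw [pow_succ', Module.End.mul_apply, tt_apply, ih]
    congr 1
    simp only [inc, Prod.mk.injEq, true_and]
    funext i
    by_cases hi : i = p
    · simp [hi]; ring
    · simp [hi]

theorem Supp_tt_pow {k : ℕ} {f : Cfg ι → ℚ} (hf : Supp k 0 f) (p : ι) (m : ℕ) :
    Supp k (fun i => if i = p then -(m : ℤ) else 0) ((tt p ^ m) f) := by
  rintro w ⟨x, hx⟩
  rw [tt_pow_apply]
  apply hf
  refine ⟨x, fun hd => hx ?_⟩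
  simp only [Pi.zero_apply, sub_zero] at hd ⊢
  by_cases h : x = p
  · rw [if_pos h] at hd ⊢; rw [sub_neg_eq_add]; exact hd
  · rw [if_neg h] at hd ⊢; simpa using hd

/-- the powers of `Y` up to `k` on functions supported on colour zero -/
theorem Yg_pow (u : ι → ℚ) (k : ℕ) (L₁ L₂ : List ι) (a : ι) (h1 : a ∉ L₁) (h2 : a ∉ L₂)
    {f : Cfg ι → ℚ} (hf : Supp k 0 f) : ∀ m : ℕ, 1 ≤ m → m ≤ k →
      (Yg u k L₁ a L₂ ^ m) f = RL u k a L₂ ((tt a ^ m) (RL u k a L₁ f)) := by
  intro m hm
  induction m, hm using Nat.le_induction with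
  | base => intro _; simp [Yg]
  | succ m hm ih =>
    intro hmk
    have hg : Supp k 0 (RL u k a L₁ f) := Supp_RL u k a L₁ hf
    have hs := Supp_tt_pow hg a m
    have htr : ∀ l, l ≠ a → ¬ (k : ℤ) ∣ (if a = a then -(m : ℤ) else 0)
        - (if l = a then -(m : ℤ) else 0) := by
      intro l hl
      rw [if_pos rfl, if_neg hl, sub_zero, dvd_neg]
      intro hd
      have := Int.natCast_dvd_natCast.1 hd
      have := Nat.le_of_dvd (by omega) this
      omega
    rw [pow_succ', Module.End.mul_apply, ih (by omega)]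
    rw [RL_trivial u k hs L₂ (fun l hl => htr l (fun e => h2 (e ▸ hl)))]
    unfold Yg
    rw [Module.End.mul_apply, Module.End.mul_apply,
      RL_trivial u k hs L₁ (fun l hl => htr l (fun e => h1 (e ▸ hl)))]
    rw [pow_succ' (tt a) m, Module.End.mul_apply]

/-- restriction to counters divisible by `k` -/
def res (k : ℕ) (f : Cfg ι → ℚ) : Cfg ι → ℚ := fun w => f (w.1, fun i => (k : ℤ) * w.2 i)

theorem res_R (u : ι → ℚ) (k : ℕ) (i j : ι) (f : Cfg ι → ℚ) :
    res k (R u k i j f) = R u 1 i j (res k f) := by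
  funext w
  unfold res
  rw [R_apply, R_apply]
  have e1 : hf u k (w.1, fun i => (k : ℤ) * w.2 i) i j = hf u 1 w i j := by
    unfold hf
    rw [if_pos, if_pos]
    · simp
    · exact ⟨w.2 i - w.2 j, by simp only; ring⟩
  rw [e1]
  rfl

theorem res_RL (u : ι → ℚ) (k : ℕ) (a : ι) : ∀ (L : List ι) (f : Cfg ι → ℚ),
    res k (RL u k a L f) = RL u 1 a L (res k f) := by
  intro L
  induction L with
  | nil => intro f; simp [RL_nil]
  | cons b L ih =>
    intro f
    rw [RL_cons, RL_cons, Module.End.mul_apply, Module.End.mul_apply, res_R, ih]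

theorem res_tt_pow (k : ℕ) (p : ι) (f : Cfg ι → ℚ) :
    res k ((tt p ^ k) f) = tt p (res k f) := by
  funext w
  unfold res
  rw [tt_pow_apply, tt_apply]
  congr 1
  simp only [inc, Prod.mk.injEq, true_and]
  funext i
  by_cases hi : i = p
  · simp [hi]; ring
  · simp [hi]

theorem res_Yg_pow (u : ι → ℚ) {k : ℕ} (hk : 1 ≤ k) (L₁ L₂ : List ι) (a : ι) (h1 : a ∉ L₁)
    (h2 : a ∉ L₂) {f : Cfg ι → ℚ} (hf : Supp k 0 f) :
    Supp k 0 ((Yg u k L₁ a L₂ ^ k) f) ∧
      res k ((Yg u k L₁ a L₂ ^ k) f) = Yg u 1 L₁ a L₂ (res k f) := by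
  rw [Yg_pow u k L₁ L₂ a h1 h2 hf k hk le_rfl]
  constructor
  · apply Supp_RL
    refine Supp_congr ?_ (Supp_tt_pow (Supp_RL u k a L₁ hf) a k)
    intro x
    by_cases hx : x = a
    · simp [hx]
    · simp [hx]
  · rw [res_RL, res_tt_pow, res_RL]
    rfl

theorem Supp_Yg (u : ι → ℚ) (k : ℕ) (L₁ L₂ : List ι) (a : ι) {δ : ι → ℤ}
    {f : Cfg ι → ℚ} (hf : Supp k δ f) :
    Supp k (fun i => δ i - if i = a then 1 else 0) (Yg u k L₁ a L₂ f) := by
  unfold Yg
  rw [Module.End.mul_apply, Module.End.mul_apply]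
  apply Supp_RL
  have hg := Supp_RL u k a L₁ hf
  rintro w ⟨x, hx⟩
  rw [tt_apply]
  apply hg
  refine ⟨x, fun hd => hx ?_⟩
  simp only [inc] at hd
  have e : w.2 x - (δ x - if x = a then 1 else 0) = w.2 x + (if x = a then 1 else 0) - δ x := by
    ring
  rw [e]; exact hd

section main

variable {u : ι → ℚ} {k : ℕ} {L : List ι}
  {Φ : MvPolynomial ι ℚ →ₐ[ℚ] Module.End ℚ (Cfg ι → ℚ)}
  {Φ₁ : MvPolynomial ι ℚ →ₐ[ℚ] Module.End ℚ (Cfg ι → ℚ)}

/-- the monomial `x^d` shifts the colours by `-d` -/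
theorem Supp_monomial (hL : ∀ a, a ∈ L) (hΦ : ∀ i, Φ (X i) = YL u k L i) (d : ι →₀ ℕ) :
    ∀ (δ : ι → ℤ) (f : Cfg ι → ℚ), Supp k δ f →
      Supp k (fun i => δ i - (d i : ℤ)) (Φ (monomial d 1) f) := by
  induction d using Finsupp.induction_linear with
  | zero =>
    intro δ f hf
    have : monomial (0 : ι →₀ ℕ) (1 : ℚ) = 1 := rfl
    rw [this, map_one]
    simpa using hf
  | add d d' ih ih' =>
    intro δ f hf
    have e : monomial (d + d') (1 : ℚ) = monomial d 1 * monomial d' 1 := by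
      rw [monomial_mul, mul_one]
    rw [e, map_mul, Module.End.mul_apply]
    have := ih _ _ (ih' δ f hf)
    refine Supp_congr (fun x => ?_) this
    simp only [Finsupp.add_apply]
    have : δ x - (d' x : ℤ) - (d x : ℤ) - (δ x - ((d x + d' x : ℕ) : ℤ)) = 0 := by push_cast; ring
    rw [this]; exact dvd_zero _
  | single a m =>
    induction m with
    | zero =>
      intro δ f hf
      rw [Finsupp.single_zero]
      have : monomial (0 : ι →₀ ℕ) (1 : ℚ) = 1 := rfl
      rw [this, map_one]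
      simpa using hf
    | succ m ih =>
      intro δ f hf
      have e : monomial (Finsupp.single a (m + 1)) (1 : ℚ)
          = monomial (Finsupp.single a m) 1 * X a := by
        rw [X, monomial_mul, mul_one, ← Finsupp.single_add]
      rw [e, map_mul, Module.End.mul_apply, hΦ]
      have := ih _ _ (Supp_Yg u k (L.takeWhile (fun x => decide (x ≠ a)))
        (L.dropWhile (fun x => decide (x ≠ a))).tail a (δ := δ) hf)
      refine Supp_congr (fun x => ?_) this
      have : (δ x - if x = a then (1 : ℤ) else 0) - ((Finsupp.single a m x : ℕ) : ℤ)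
          - (δ x - ((Finsupp.single a (m + 1) x : ℕ) : ℤ)) = 0 := by
        by_cases hx : x = a
        · subst hx; simp; ring
        · simp [hx, Finsupp.single_eq_of_ne hx]
      rw [this]; exact dvd_zero _

/-- the monomial `x^{k d}` on functions supported on colour zero -/
theorem res_monomial (hk : 1 ≤ k) (hn : L.Nodup) (hL : ∀ a, a ∈ L)
    (hΦ : ∀ i, Φ (X i) = YL u k L i)
    (hΦ₁ : ∀ i, Φ₁ (X i) = YL u 1 L i) (d : ι →₀ ℕ) :
    ∀ (f : Cfg ι → ℚ), Supp k 0 f → Supp k 0 (Φ (monomial (k • d) 1) f) ∧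
      res k (Φ (monomial (k • d) 1) f) = Φ₁ (monomial d 1) (res k f) := by
  induction d using Finsupp.induction_linear with
  | zero =>
    intro f hf
    have : monomial (0 : ι →₀ ℕ) (1 : ℚ) = 1 := rfl
    rw [smul_zero, this, map_one, map_one]
    exact ⟨hf, rfl⟩
  | add d d' ih ih' =>
    intro f hf
    have e : monomial (d + d') (1 : ℚ) = monomial d 1 * monomial d' 1 := by
      rw [monomial_mul, mul_one]
    have e' : monomial (k • (d + d')) (1 : ℚ) = monomial (k • d) 1 * monomial (k • d') 1 := by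
      rw [monomial_mul, mul_one, smul_add]
    obtain ⟨h1, h2⟩ := ih' f hf
    obtain ⟨h3, h4⟩ := ih _ h1
    rw [e, e', map_mul, map_mul, Module.End.mul_apply, Module.End.mul_apply]
    exact ⟨h3, by rw [h4, h2]⟩
  | single a m =>
    induction m with
    | zero =>
      intro f hf
      have : monomial (0 : ι →₀ ℕ) (1 : ℚ) = 1 := rfl
      rw [Finsupp.single_zero, smul_zero, this, map_one, map_one]
      exact ⟨hf, rfl⟩
    | succ m ih =>
      intro f hf
      have e : monomial (Finsupp.single a (m + 1)) (1 : ℚ)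
          = monomial (Finsupp.single a m) 1 * X a := by
        rw [X, monomial_mul, mul_one, ← Finsupp.single_add]
      have e' : monomial (k • Finsupp.single a (m + 1)) (1 : ℚ)
          = monomial (k • Finsupp.single a m) 1 * X a ^ k := by
        rw [X_pow_eq_monomial, monomial_mul, mul_one, Finsupp.smul_single, Finsupp.smul_single,
          ← Finsupp.single_add]
        congr 2
      obtain ⟨L₁, L₂, h⟩ := List.append_of_mem (hL a)
      have hn' := hn
      rw [h] at hn'
      have ha1 : a ∉ L₁ := by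
        intro ha
        rw [List.nodup_append] at hn'
        exact hn'.2.2 a ha a (by simp) rfl
      have ha2 : a ∉ L₂ := by
        rw [List.nodup_append, List.nodup_cons] at hn'
        exact hn'.2.1.1
      have e1 : YL u k L a = Yg u k L₁ a L₂ := by rw [h]; exact YL_eq u k a L₂ L₁ ha1
      have e2 : YL u 1 L a = Yg u 1 L₁ a L₂ := by rw [h]; exact YL_eq u 1 a L₂ L₁ ha1
      obtain ⟨h1, h2⟩ := res_Yg_pow u hk L₁ L₂ a ha1 ha2 hf
      obtain ⟨h3, h4⟩ := ih _ h1
      rw [e, e', map_mul, map_mul, map_pow, Module.End.mul_apply, Module.End.mul_apply, hΦ, hΦ₁,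
        e1, e2]
      exact ⟨h3, by rw [h4, h2]⟩

end main

end Pool.Agent.T6.H58.RK
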