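import Mathlib
import Pool.Agent.T6.H58.RK.Supp

/-!
# Positivity at integer parameters
-/

namespace Pool.Agent.T6.H58.RK

open MvPolynomial

/-- the integer parameters -/
def uN (n : ℕ) : Fin n → ℚ := fun i => (i.val : ℚ)

theorem uN_inj (n : ℕ) : Function.Injective (uN n) := by
  intro i j h
  unfold uN at h
  exact Fin.ext (by exact_mod_cast h)

theorem one_sub_hf_nonneg (n k : ℕ) (w : Cfg (Fin n)) (i j : Fin n) :
    0 ≤ 1 - hf (uN n) k w i j := by
  unfold hf
  split_ifs with h
  · unfold uN
    by_cases hlt : (w.1 i).val ≤ (w.1 j).val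
    · have : (((w.1 i).val : ℚ) - ((w.1 j).val : ℚ))⁻¹ ≤ 0 := by
        rw [inv_nonpos]
        have : ((w.1 i).val : ℚ) ≤ ((w.1 j).val : ℚ) := by exact_mod_cast hlt
        linarith
      linarith
    · push Not at hlt
      have h1 : (1 : ℚ) ≤ ((w.1 i).val : ℚ) - ((w.1 j).val : ℚ) := by
        have : ((w.1 j).val : ℚ) + 1 ≤ ((w.1 i).val : ℚ) := by exact_mod_cast hlt
        linarith
      have := inv_le_one_of_one_le₀ h1
      linarith
  · norm_num

theorem wt_nonneg (n k : ℕ) (w : Cfg (Fin n)) (P Q : Finset (Fin n)) :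
    0 ≤ wt (uN n) k w P Q :=
  Finset.prod_nonneg fun p _ => Finset.prod_nonneg fun i _ => one_sub_hf_nonneg n k w p i

theorem AA_nonneg (n k : ℕ) {F : Cfg (Fin n) → ℚ} (hF : ∀ w, 0 ≤ F w) (S : Finset (Fin n))
    (m : ℕ) (w : Cfg (Fin n)) : 0 ≤ AA (uN n) k F S m w :=
  Finset.sum_nonneg fun P _ => mul_nonneg (wt_nonneg n k w P _) (hF _)

/-- the initial segment -/
def seg (n m : ℕ) : Finset (Fin n) := Finset.univ.filter (fun i => i.val < m)

theorem card_seg {n m : ℕ} (hm : m ≤ n) : (seg n m).card = m := by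
  unfold seg
  rw [Fin.card_filter_val_lt]
  exact min_eq_right hm

theorem exists_gap {n m : ℕ} (hm : m ≤ n) (P : Finset (Fin n)) (hc : P.card = m)
    (hP : P ≠ seg n m) : ∃ p ∈ P, ∃ i, i ∉ P ∧ p.val = i.val + 1 := by
  by_contra hcon
  push Not at hcon
  apply hP
  -- `P` is closed downwards
  have hdown : ∀ t : ℕ, ∀ p ∈ P, ∀ j : Fin n, j.val + t = p.val → j ∈ P := by
    intro t
    induction t with
    | zero =>
      intro p hp j hj
      have : j = p := Fin.ext (by simpa using hj)
      rw [this]; exact hp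
    | succ t ih =>
      intro p hp j hj
      have hlt : j.val + 1 < n := by have := p.isLt; omega
      have h1 := ih p hp ⟨j.val + 1, hlt⟩ (by simp only; omega)
      by_contra hj'
      exact hcon _ h1 j hj' rfl
  refine Finset.eq_of_subset_of_card_le ?_ (by rw [hc, card_seg hm])
  intro p hp
  unfold seg
  rw [Finset.mem_filter]
  refine ⟨Finset.mem_univ _, ?_⟩
  have hsub : (Finset.univ.filter (fun i : Fin n => i.val < p.val + 1)) ⊆ P := by
    intro j hj
    rw [Finset.mem_filter] at hj
    exact hdown (p.val - j.val) p hp j (by omega)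
  have := Finset.card_le_card hsub
  rw [Fin.card_filter_val_lt, hc] at this
  have := p.isLt
  omega

theorem AA_one (n m : ℕ) (hm : m ≤ n) : ∃ W : ℚ, 0 < W ∧ ∀ g : Cfg (Fin n) → ℚ, ∀ c : Fin n → ℤ,
    AA (uN n) 1 g Finset.univ m (1, c)
      = W * g (1, fun i => c i + if i.val < m then 1 else 0) := by
  refine ⟨wt (uN n) 1 (1, 0) (seg n m) (Finset.univ \ seg n m), ?_, ?_⟩
  · refine Finset.prod_pos fun p hp => Finset.prod_pos fun i hi => ?_
    rw [Finset.mem_sdiff] at hi
    have hi2 := hi.2
    unfold seg at hp hi2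
    rw [Finset.mem_filter] at hp hi2
    have h1 : p.val < m := hp.2
    have h2 : m ≤ i.val := by
      by_contra h
      exact hi2 ⟨Finset.mem_univ _, by omega⟩
    unfold hf uN
    rw [if_pos (by simp)]
    have : (((1 : Equiv.Perm (Fin n)) p).val : ℚ) - (((1 : Equiv.Perm (Fin n)) i).val : ℚ) < 0 := by
      have : (p.val : ℚ) < (i.val : ℚ) := by exact_mod_cast lt_of_lt_of_le h1 h2
      simpa using this
    have := inv_lt_zero.2 this
    simp only at this ⊢
    linarith
  · intro g c
    unfold AA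
    have hind : ∀ P Q, wt (uN n) 1 (1, c) P Q = wt (uN n) 1 (1, 0) P Q := by
      intro P Q
      unfold wt hf
      refine Finset.prod_congr rfl fun p _ => Finset.prod_congr rfl fun i _ => ?_
      rw [if_pos (by simp), if_pos (by simp)]
    rw [Finset.sum_eq_single (seg n m)]
    · rw [hind]
      congr 2
      unfold incS seg
      simp only [Finset.mem_filter, Finset.mem_univ, true_and]
    · intro P hP hne
      rw [Finset.mem_powersetCard] at hP
      obtain ⟨p, hp, i, hi, hpi⟩ := exists_gap hm P hP.2 hne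
      have : wt (uN n) 1 (1, c) P (Finset.univ \ P) = 0 := by
        unfold wt
        apply Finset.prod_eq_zero hp
        apply Finset.prod_eq_zero (i := i) (by simp [hi])
        unfold hf uN
        rw [if_pos (by simp)]
        simp only [Equiv.Perm.coe_one, id_eq]
        rw [hpi]
        push_cast
        simp
      rw [this, zero_mul]
    · intro h
      exfalso
      apply h
      rw [Finset.mem_powersetCard]
      exact ⟨Finset.subset_univ _, card_seg hm⟩

section eval

variable {n k : ℕ} {L : List (Fin n)}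
  {Φ : MvPolynomial (Fin n) ℚ →ₐ[ℚ] Module.End ℚ (Cfg (Fin n) → ℚ)}
  {Φ₁ : MvPolynomial (Fin n) ℚ →ₐ[ℚ] Module.End ℚ (Cfg (Fin n) → ℚ)}

/-- products of elementary symmetric polynomials act positively on symmetric functions -/
theorem prod_esymm_nonneg (hn : L.Nodup) (hL : ∀ a, a ∈ L)
    (hΦ : ∀ i, Φ (X i) = YL (uN n) k L i) (l : List ℕ) :
    ∀ F : Cfg (Fin n) → ℚ, IsSymm F → (∀ w, 0 ≤ F w) →
      IsSymm (Φ (l.map (esymm (Fin n) ℚ)).prod F) ∧
        ∀ w, 0 ≤ Φ (l.map (esymm (Fin n) ℚ)).prod F w := by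
  induction l with
  | nil =>
    intro F hF hp
    rw [List.map_nil, List.prod_nil, map_one, Module.End.one_apply]
    exact ⟨hF, hp⟩
  | cons m l ih =>
    intro F hF hp
    obtain ⟨h1, h2⟩ := ih F hF hp
    rw [List.map_cons, List.prod_cons, map_mul, Module.End.mul_apply,
      Phi_esymm (uN_inj n) k L hn hL Φ hΦ h1 m]
    exact ⟨IsSymm_AA _ _ h1 m, AA_nonneg n k h2 _ m⟩

/-- products of elementary symmetric polynomials at `k = 1` -/
theorem monomial_esymm (hn : L.Nodup) (hL : ∀ a, a ∈ L)
    (hΦ₁ : ∀ i, Φ₁ (X i) = YL (uN n) 1 L i) (d : Fin n →₀ ℕ) :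
    ∃ W : ℚ, 0 < W ∧ ∀ g : Cfg (Fin n) → ℚ, IsSymm g →
      IsSymm (Φ₁ (aeval (fun i : Fin n => esymm (Fin n) ℚ (i.val + 1)) (monomial d (1 : ℚ))) g) ∧
      ∀ c : Fin n → ℤ,
        Φ₁ (aeval (fun i : Fin n => esymm (Fin n) ℚ (i.val + 1)) (monomial d (1 : ℚ))) g (1, c)
        = W * g (1, fun i => c i + (Fin.accumulate n n d i : ℤ)) := by
  induction d using Finsupp.induction_linear with
  | zero =>
    refine ⟨1, one_pos, fun g hg => ?_⟩
    have : monomial (0 : Fin n →₀ ℕ) (1 : ℚ) = 1 := rfl
    rw [this, map_one, map_one]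
    refine ⟨hg, fun c => ?_⟩
    rw [one_mul, Module.End.one_apply]
    congr 2
    funext i
    rw [Finsupp.coe_zero, map_zero]
    simp
  | add d d' ih ih' =>
    obtain ⟨W, hW, h⟩ := ih
    obtain ⟨W', hW', h'⟩ := ih'
    refine ⟨W' * W, mul_pos hW' hW, fun g hg => ?_⟩
    have e : monomial (d + d') (1 : ℚ) = monomial d 1 * monomial d' 1 := by
      rw [monomial_mul, mul_one]
    obtain ⟨h1, h2⟩ := h' g hg
    obtain ⟨h3, h4⟩ := h _ h1
    rw [e, map_mul, map_mul, Module.End.mul_apply]
    refine ⟨h3, fun c => ?_⟩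
    rw [h4, h2, ← mul_assoc, mul_comm W W']
    congr 3
    funext i
    rw [Finsupp.coe_add, map_add, Pi.add_apply]
    push_cast
    ring
  | single a m =>
    induction m with
    | zero =>
      refine ⟨1, one_pos, fun g hg => ?_⟩
      have : monomial (0 : Fin n →₀ ℕ) (1 : ℚ) = 1 := rfl
      rw [Finsupp.single_zero, this, map_one, map_one]
      refine ⟨hg, fun c => ?_⟩
      rw [one_mul, Module.End.one_apply]
      congr 2
      funext i
      rw [Finsupp.coe_zero, map_zero]
      simp
    | succ m ih =>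
      obtain ⟨W, hW, h⟩ := ih
      obtain ⟨W', hW', h'⟩ := AA_one n (a.val + 1) a.isLt
      refine ⟨W' * W, mul_pos hW' hW, fun g hg => ?_⟩
      have e : monomial (Finsupp.single a (m + 1)) (1 : ℚ)
          = X a * monomial (Finsupp.single a m) 1 := by
        rw [X, monomial_mul, mul_one, ← Finsupp.single_add, add_comm]
      obtain ⟨h1, h2⟩ := h g hg
      rw [e, map_mul, map_mul, Module.End.mul_apply, aeval_X,
        Phi_esymm (uN_inj n) 1 L hn hL Φ₁ hΦ₁ h1]
      refine ⟨IsSymm_AA _ _ h1 _, fun c => ?_⟩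
      rw [h', h2, ← mul_assoc]
      congr 3
      funext i
      rw [← add_comm 1 m, Finsupp.single_add, Finsupp.coe_add, map_add, Pi.add_apply]
      have : Fin.accumulate n n (Finsupp.single a 1) i = if i.val < a.val + 1 then 1 else 0 := by
        rw [Fin.accumulate_apply]
        by_cases hi : i.val < a.val + 1
        · rw [if_pos hi, Finset.sum_eq_single a]
          · simp
          · intro b _ hb
            rw [Finsupp.single_eq_of_ne hb]
          · intro ha
            exfalso
            apply ha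
            rw [Finset.mem_filter]
            exact ⟨Finset.mem_univ _, by omega⟩
        · rw [if_neg hi]
          refine Finset.sum_eq_zero fun b hb => ?_
          rw [Finset.mem_filter] at hb
          have : b ≠ a := by
            rintro rfl
            omega
          rw [Finsupp.single_eq_of_ne this]
      rw [this]
      push_cast
      ring

theorem res_base (k : ℕ) (g : Cfg (Fin n) → ℚ) : res k g (1, 0) = g (1, 0) := by
  have : (fun i : Fin n => (k : ℤ) * (0 : Fin n → ℤ) i) = 0 := by
    funext i; simp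
  unfold res
  simp only [this]

/-- comparison of `k` and `1` at the base point -/
theorem compare (hk : 1 ≤ k) (hn : L.Nodup) (hL : ∀ a, a ∈ L)
    (hΦ : ∀ i, Φ (X i) = YL (uN n) k L i) (hΦ₁ : ∀ i, Φ₁ (X i) = YL (uN n) 1 L i)
    (p q : MvPolynomial (Fin n) ℚ) (hq : ∀ d, coeff d q = coeff (k • d) p)
    {f : Cfg (Fin n) → ℚ} (hf : Supp k 0 f) :
    Φ p f (1, 0) = Φ₁ q (res k f) (1, 0) := by
  have hsum : ∀ (Ψ : MvPolynomial (Fin n) ℚ →ₐ[ℚ] Module.End ℚ (Cfg (Fin n) → ℚ))
      (r : MvPolynomial (Fin n) ℚ) (g : Cfg (Fin n) → ℚ) (w : Cfg (Fin n)),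
      Ψ r g w = ∑ d ∈ r.support, coeff d r * Ψ (monomial d 1) g w := by
    intro Ψ r g w
    conv_lhs => rw [r.as_sum]
    rw [map_sum, LinearMap.sum_apply, Finset.sum_apply]
    refine Finset.sum_congr rfl fun d _ => ?_
    have : monomial d (coeff d r) = (coeff d r) • monomial d (1 : ℚ) := by
      rw [smul_monomial, smul_eq_mul, mul_one]
    rw [this, map_smul, LinearMap.smul_apply, Pi.smul_apply, smul_eq_mul]
  rw [hsum, hsum]
  have hinj : ∀ d d' : Fin n →₀ ℕ, k • d = k • d' → d = d' := by
    intro d d' h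
    ext i
    have := DFunLike.congr_fun h i
    simp only [Finsupp.smul_apply, smul_eq_mul] at this
    exact Nat.eq_of_mul_eq_mul_left hk this
  have e1 : ∑ d ∈ q.support, coeff d q * Φ₁ (monomial d 1) (res k f) (1, 0)
      = ∑ d ∈ q.support.image (fun d => k • d), coeff d p * Φ (monomial d 1) f (1, 0) := by
    rw [Finset.sum_image (fun d _ d' _ h => hinj d d' h)]
    refine Finset.sum_congr rfl fun d _ => ?_
    rw [hq, ← (res_monomial hk hn hL hΦ hΦ₁ d f hf).2]
    rw [res_base]
  rw [e1]
  symm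
  apply Finset.sum_subset
  · intro d hd
    rw [Finset.mem_image] at hd
    obtain ⟨e, he, rfl⟩ := hd
    rw [mem_support_iff] at he ⊢
    rwa [← hq]
  · intro d hd hd'
    by_cases hdk : ∀ x, (k : ℤ) ∣ (d x : ℤ)
    · exfalso
      apply hd'
      rw [Finset.mem_image]
      refine ⟨Finsupp.equivFunOnFinite.symm (fun x => d x / k), ?_, ?_⟩
      · rw [mem_support_iff, hq]
        have : k • (Finsupp.equivFunOnFinite.symm (fun x => d x / k)) = d := by
          ext x
          simp only [Finsupp.smul_apply, Finsupp.equivFunOnFinite_symm_apply_apply, smul_eq_mul]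
          exact Nat.mul_div_cancel' (Int.natCast_dvd_natCast.1 (hdk x))
        rw [this]
        exact mem_support_iff.1 hd
      · ext x
        simp only [Finsupp.smul_apply, Finsupp.equivFunOnFinite_symm_apply_apply, smul_eq_mul]
        exact Nat.mul_div_cancel' (Int.natCast_dvd_natCast.1 (hdk x))
    · push Not at hdk
      obtain ⟨x, hx⟩ := hdk
      have h1 := Supp_monomial (k := k) hL hΦ d 0 f hf
      have h2 : Φ (monomial d 1) f (1, 0) = 0 := by
        apply h1
        refine ⟨x, ?_⟩
        simpa using hx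
      rw [h2, mul_zero]

end eval

/-- the finite-variable positivity theorem -/
theorem fin_pos (n k : ℕ) (hk : 1 ≤ k) (l : List ℕ) (P q : MvPolynomial (Fin n) ℚ)
    (hq : ∀ d, coeff d q = coeff (k • d) (l.map (esymm (Fin n) ℚ)).prod)
    (hP : aeval (fun i : Fin n => esymm (Fin n) ℚ (i.val + 1)) P = q) :
    ∀ d, 0 ≤ coeff d P := by
  intro d₀
  have hn : (List.finRange n).Nodup := List.nodup_finRange n
  have hL : ∀ a : Fin n, a ∈ List.finRange n := List.mem_finRange
  obtain ⟨Φ, hΦ⟩ := exists_eval (YL (uN n) k (List.finRange n))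
    (YL_comm (uN_inj n) k _ hn hL)
  obtain ⟨Φ₁, hΦ₁⟩ := exists_eval (YL (uN n) 1 (List.finRange n))
    (YL_comm (uN_inj n) 1 _ hn hL)
  -- the test function
  set ν : Fin n → ℕ := Fin.accumulate n n d₀ with hν
  let f : Cfg (Fin n) → ℚ := fun w => if ∀ x, w.2 x = (k : ℤ) * ν (w.1 x) then 1 else 0
  have hfs : IsSymm f := by
    intro i j w
    have : (∀ x, (sw i j w).2 x = (k : ℤ) * ν ((sw i j w).1 x))
        ↔ ∀ x, w.2 x = (k : ℤ) * ν (w.1 x) := by
      constructor
      · intro h x
        have := h (Equiv.swap i j x)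
        simpa [sw] using this
      · intro h x
        exact h (Equiv.swap i j x)
    simp only [f, this]
  have hf0 : ∀ w, 0 ≤ f w := by
    intro w
    simp only [f]
    split_ifs <;> norm_num
  have hfS : Supp k 0 f := by
    rintro w ⟨x, hx⟩
    simp only [f]
    rw [if_neg]
    intro h
    apply hx
    rw [h x, Pi.zero_apply, sub_zero]
    exact dvd_mul_right _ _
  have hpos := (prod_esymm_nonneg hn hL hΦ l f hfs hf0).2 (1, 0)
  rw [compare hk hn hL hΦ hΦ₁ _ q hq hfS] at hpos
  -- the restricted function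
  have hg : res k f = fun w : Cfg (Fin n) =>
      if ∀ x, w.2 x = (ν (w.1 x) : ℤ) then (1 : ℚ) else 0 := by
    funext w
    unfold res
    simp only [f]
    have : (∀ x, (k : ℤ) * w.2 x = (k : ℤ) * ν (w.1 x)) ↔ ∀ x, w.2 x = ν (w.1 x) := by
      constructor
      · intro h x
        have hk' : (k : ℤ) ≠ 0 := by positivity
        exact mul_left_cancel₀ hk' (h x)
      · intro h x
        rw [h x]
    simp only [this]
  have hgs : IsSymm (res k f) := by
    rw [hg]
    intro i j w
    have : (∀ x, (sw i j w).2 x = (ν ((sw i j w).1 x) : ℤ))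
        ↔ ∀ x, w.2 x = ν (w.1 x) := by
      constructor
      · intro h x
        have := h (Equiv.swap i j x)
        simpa [sw] using this
      · intro h x
        exact h (Equiv.swap i j x)
    simp only [this]
  -- expand `q`
  have hexp : Φ₁ q (res k f) (1, 0) = ∑ d ∈ P.support, coeff d P *
      Φ₁ (aeval (fun i : Fin n => esymm (Fin n) ℚ (i.val + 1)) (monomial d (1 : ℚ)))
        (res k f) (1, 0) := by
    rw [← hP]
    conv_lhs => rw [P.as_sum]
    rw [map_sum, map_sum, LinearMap.sum_apply, Finset.sum_apply]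
    refine Finset.sum_congr rfl fun d _ => ?_
    have : monomial d (coeff d P) = (coeff d P) • monomial d (1 : ℚ) := by
      rw [smul_monomial, smul_eq_mul, mul_one]
    rw [this, map_smul, map_smul, LinearMap.smul_apply, Pi.smul_apply, smul_eq_mul]
  have hval : ∀ d, ∃ W : ℚ, 0 < W ∧
      Φ₁ (aeval (fun i : Fin n => esymm (Fin n) ℚ (i.val + 1)) (monomial d (1 : ℚ)))
        (res k f) (1, 0) = if d = d₀ then W else 0 := by
    intro d
    obtain ⟨W, hW, h⟩ := monomial_esymm hn hL hΦ₁ d
    refine ⟨W, hW, ?_⟩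
    rw [(h _ hgs).2, hg]
    simp only []
    by_cases hd : d = d₀
    · rw [if_pos hd, if_pos, mul_one]
      intro x
      simp [hν, hd]
    · rw [if_neg hd, if_neg, mul_zero]
      intro hcon
      apply hd
      have : Fin.accumulate n n d = Fin.accumulate n n d₀ := by
        funext x
        have := hcon x
        simp only [Pi.zero_apply, zero_add, Equiv.Perm.coe_one, id_eq] at this
        exact_mod_cast this
      exact DFunLike.coe_injective (Fin.accumulate_injective le_rfl this)
  choose W hW hval using hval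
  rw [hexp] at hpos
  simp only [hval] at hpos
  by_cases hd₀ : d₀ ∈ P.support
  · rw [Finset.sum_eq_single d₀] at hpos
    · rw [if_pos rfl] at hpos
      exact nonneg_of_mul_nonneg_left hpos (hW d₀)
    · intro d _ hne
      rw [if_neg hne, mul_zero]
    · intro h
      exact absurd hd₀ h
  · rw [notMem_support_iff.1 hd₀]

end Pool.Agent.T6.H58.RK
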