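import Mathlib
import Pool.Agent.T6.H58.RK.Pos

/-!
# The finite-variable theorem with natural number coefficients
-/

namespace Pool.Agent.T6.H58.RK

open MvPolynomial

variable {n : ℕ}

/-- the multiset with `d i` copies of `i + 1` -/
def mOf (d : Fin n →₀ ℕ) : Multiset ℕ := ∑ i : Fin n, d i • ({i.val + 1} : Multiset ℕ)

/-- multiplicities -/
noncomputable def dOf (n : ℕ) (s : Multiset ℕ) : Fin n →₀ ℕ :=
  Finsupp.equivFunOnFinite.symm (fun i => s.count (i.val + 1))

theorem count_mOf (d : Fin n →₀ ℕ) (a : ℕ) :
    (mOf d).count a = ∑ i : Fin n, d i * (if a = i.val + 1 then 1 else 0) := by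
  unfold mOf
  rw [Multiset.count_sum']
  refine Finset.sum_congr rfl fun i _ => ?_
  rw [Multiset.count_nsmul, Multiset.count_singleton]

theorem dOf_mOf (d : Fin n →₀ ℕ) : dOf n (mOf d) = d := by
  ext i
  unfold dOf
  rw [Finsupp.equivFunOnFinite_symm_apply_apply, count_mOf, Finset.sum_eq_single i]
  · simp
  · intro j _ hj
    rw [if_neg, mul_zero]
    intro h
    apply hj
    exact Fin.ext (by omega)
  · intro h; exact absurd (Finset.mem_univ i) h

theorem mOf_dOf {s : Multiset ℕ} (hs : ∀ a ∈ s, 1 ≤ a ∧ a ≤ n) : mOf (dOf n s) = s := by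
  ext a
  rw [count_mOf]
  by_cases ha : a ∈ s
  · obtain ⟨h1, h2⟩ := hs a ha
    rw [Finset.sum_eq_single (⟨a - 1, by omega⟩ : Fin n)]
    · rw [if_pos (by simp only; omega), mul_one]
      unfold dOf
      rw [Finsupp.equivFunOnFinite_symm_apply_apply]
      congr 1
      simp only
      omega
    · intro j _ hj
      rw [if_neg, mul_zero]
      intro h
      apply hj
      exact Fin.ext (by simp only; omega)
    · intro h; exact absurd (Finset.mem_univ _) h
  · rw [Multiset.count_eq_zero_of_notMem ha]
    refine Finset.sum_eq_zero fun i _ => ?_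
    by_cases hi : a = i.val + 1
    · unfold dOf
      rw [Finsupp.equivFunOnFinite_symm_apply_apply, ← hi, Multiset.count_eq_zero_of_notMem ha,
        zero_mul]
    · rw [if_neg hi, mul_zero]

theorem prod_map_mOf {M : Type*} [CommMonoid M] (f : ℕ → M) (d : Fin n →₀ ℕ) :
    ((mOf d).map f).prod = ∏ i : Fin n, f (i.val + 1) ^ d i := by
  unfold mOf
  have : (∑ i : Fin n, d i • ({i.val + 1} : Multiset ℕ)).map f
      = ∑ i : Fin n, d i • ({f (i.val + 1)} : Multiset M) := by
    rw [← Multiset.coe_mapAddMonoidHom, map_sum]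
    refine Finset.sum_congr rfl fun i _ => ?_
    rw [map_nsmul, Multiset.coe_mapAddMonoidHom, Multiset.map_singleton]
  rw [this, Multiset.prod_sum]
  refine Finset.prod_congr rfl fun i _ => ?_
  rw [Multiset.prod_nsmul, Multiset.prod_singleton]

theorem aeval_monomial_esymm (d : Fin n →₀ ℕ) :
    aeval (fun i : Fin n => esymm (Fin n) ℚ (i.val + 1)) (monomial d (1 : ℚ))
      = ((mOf d).map (esymm (Fin n) ℚ)).prod := by
  rw [prod_map_mOf, aeval_monomial, map_one, one_mul, Finsupp.prod_fintype]
  intro i; rw [pow_zero]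

/-- coefficients of elementary symmetric polynomials -/
theorem coeff_esymm (m : ℕ) (d : Fin n →₀ ℕ) :
    coeff d (esymm (Fin n) ℚ m) = if d.degree = m ∧ ∀ i, d i ≤ 1 then 1 else 0 := by
  classical
  rw [esymm_eq_sum_monomial, coeff_sum]
  simp only [coeff_monomial]
  have hval : ∀ (t : Finset (Fin n)) (j : Fin n),
      (∑ i ∈ t, (Finsupp.single i 1 : Fin n →₀ ℕ)) j = if j ∈ t then 1 else 0 := by
    intro t j
    rw [Finsupp.finsetSum_apply]
    simp [Finsupp.single_apply]
  by_cases h : d.degree = m ∧ ∀ i, d i ≤ 1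
  · rw [if_pos h, Finset.sum_eq_single d.support]
    · rw [if_pos]
      ext j
      rw [hval]
      have := h.2 j
      by_cases hj : j ∈ d.support
      · rw [if_pos hj]; rw [Finsupp.mem_support_iff] at hj; omega
      · rw [if_neg hj]; rw [Finsupp.notMem_support_iff] at hj; omega
    · intro t _ ht
      rw [if_neg]
      intro hcon
      apply ht
      ext j
      rw [Finsupp.mem_support_iff, ← hcon, hval]
      by_cases hj : j ∈ t <;> simp [hj]
    · intro hcon
      exfalso
      apply hcon
      rw [Finset.mem_powersetCard]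
      refine ⟨Finset.subset_univ _, ?_⟩
      rw [← h.1, Finsupp.degree_apply, Finset.card_eq_sum_ones]
      refine Finset.sum_congr rfl fun j hj => ?_
      rw [Finsupp.mem_support_iff] at hj
      have := h.2 j
      omega
  · rw [if_neg h]
    refine Finset.sum_eq_zero fun t ht => ?_
    rw [if_neg]
    intro hcon
    apply h
    constructor
    · rw [← hcon, map_sum]
      simp only [Finsupp.degree_single]
      rw [Finset.sum_const, smul_eq_mul, mul_one]
      exact (Finset.mem_powersetCard.1 ht).2
    · intro i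
      rw [← hcon, hval]
      split_ifs <;> omega

/-- homogeneity of products of elementary symmetric polynomials -/
theorem coeff_prod_esymm (s : Multiset ℕ) : ∀ (d : Fin n →₀ ℕ),
    coeff d (s.map (esymm (Fin n) ℚ)).prod ≠ 0 → d.degree = s.sum := by
  classical
  induction s using Multiset.induction_on with
  | empty =>
    intro d h
    rw [Multiset.map_zero, Multiset.prod_zero, coeff_one] at h
    have : 0 = d := by
      by_contra hne
      rw [if_neg hne] at h
      exact h rfl
    rw [← this]; simp
  | cons a s ih =>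
    intro d h
    rw [Multiset.map_cons, Multiset.prod_cons, coeff_mul] at h
    obtain ⟨p, hp, hne⟩ := Finset.exists_ne_zero_of_sum_ne_zero h
    have h1 : coeff p.1 (esymm (Fin n) ℚ a) ≠ 0 := left_ne_zero_of_mul hne
    have h2 := right_ne_zero_of_mul hne
    have h3 := ih p.2 h2
    have h4 : p.1.degree = a := by
      rw [coeff_esymm] at h1
      by_contra hcon
      rw [if_neg (fun e => hcon e.1)] at h1
      exact h1 rfl
    rw [Finset.HasAntidiagonal.mem_antidiagonal] at hp
    rw [← hp, map_add, h3, h4, Multiset.sum_cons]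

theorem coeff_smul_isSymmetric {R : Type*} [CommRing R] {k : ℕ} {p q : MvPolynomial (Fin n) R}
    (hp : p.IsSymmetric) (hq : ∀ d, coeff d q = coeff (k • d) p) : q.IsSymmetric := by
  intro e
  ext d
  have hd : d = Finsupp.mapDomain e (Finsupp.mapDomain e.symm d) := by
    rw [← Finsupp.mapDomain_comp]; simp
  rw [hd, coeff_rename_mapDomain _ e.injective, hq, hq]
  set d' := Finsupp.mapDomain e.symm d
  have h1 : k • Finsupp.mapDomain e d' = Finsupp.mapDomain e (k • d') := by
    rw [Finsupp.mapDomain_smul]
  rw [h1]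
  conv_rhs => rw [← hp e]
  rw [coeff_rename_mapDomain _ e.injective]

/-- existence of the polynomial with the coefficients `coeff (k • d) p` -/
theorem exists_div {R : Type*} [CommRing R] {k : ℕ} (hk : 1 ≤ k) (p : MvPolynomial (Fin n) R) :
    ∃ q : MvPolynomial (Fin n) R, ∀ d, coeff d q = coeff (k • d) p := by
  classical
  have hinj : Function.Injective (fun d : Fin n →₀ ℕ => k • d) := by
    intro d d' h
    ext i
    have := DFunLike.congr_fun h i
    simp only [Finsupp.smul_apply, smul_eq_mul] at this
    exact Nat.eq_of_mul_eq_mul_left hk this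
  refine ⟨∑ d ∈ p.support.preimage (fun d => k • d) hinj.injOn, monomial d (coeff (k • d) p), ?_⟩
  intro d
  rw [coeff_sum]
  simp only [coeff_monomial]
  by_cases hd : coeff (k • d) p = 0
  · rw [hd]
    refine Finset.sum_eq_zero fun d' _ => ?_
    by_cases h : d' = d
    · rw [if_pos h, h, hd]
    · rw [if_neg h]
  · rw [Finset.sum_eq_single d]
    · rw [if_pos rfl]
    · intro d' _ h
      rw [if_neg h]
    · intro h
      exfalso
      apply h
      rw [Finset.mem_preimage, mem_support_iff]
      exact hd

/-- the finite-variable theorem with natural coefficients -/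
theorem fin_main (n k : ℕ) (hk : 1 ≤ k) (s : Multiset ℕ) :
    ∃ c : (Fin n →₀ ℕ) → ℕ, ∀ a : Fin n →₀ ℕ, a.degree = n →
      coeff (k • a) (s.map (esymm (Fin n) ℚ)).prod
        = ∑ lam : n.Partition, (c (dOf n lam.parts) : ℚ) *
          coeff a (lam.parts.map (esymm (Fin n) ℚ)).prod := by
  classical
  obtain ⟨l, rfl⟩ : ∃ l : List ℕ, s = (l : Multiset ℕ) := ⟨s.toList, by simp⟩
  -- the integral polynomial
  set pZ : MvPolynomial (Fin n) ℤ := (l.map (esymm (Fin n) ℤ)).prod with hpZ
  have hpsym : pZ.IsSymmetric := by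
    rw [hpZ]
    have : ∀ l : List ℕ, ((l.map (esymm (Fin n) ℤ)).prod).IsSymmetric := by
      intro l
      induction l with
      | nil => exact IsSymmetric.one
      | cons a l ih =>
        rw [List.map_cons, List.prod_cons]
        exact (esymm_isSymmetric _ _ a).mul ih
    exact this l
  obtain ⟨qZ, hqZ⟩ := exists_div hk pZ
  have hqsym : qZ.IsSymmetric := coeff_smul_isSymmetric hpsym hqZ
  obtain ⟨P, hP⟩ := esymmAlgHom_fin_surjective ℤ (le_refl n)
    (⟨qZ, hqsym⟩ : symmetricSubalgebra (Fin n) ℤ)
  have hP' : aeval (fun i : Fin n => esymm (Fin n) ℤ (i.val + 1)) P = qZ := by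
    rw [← esymmAlgHom_apply, hP]
  -- pass to the rationals
  set f : ℤ →+* ℚ := Int.castRingHom ℚ with hf
  have hpQ : map f pZ = (l.map (esymm (Fin n) ℚ)).prod := by
    rw [hpZ, map_list_prod, List.map_map]
    congr 1
    apply List.map_congr_left
    intro a _
    exact map_esymm _ _ _ _
  have hqQ : ∀ d, coeff d (map f qZ) = coeff (k • d) (l.map (esymm (Fin n) ℚ)).prod := by
    intro d
    rw [← hpQ, coeff_map, coeff_map, hqZ]
  have hPQ : aeval (fun i : Fin n => esymm (Fin n) ℚ (i.val + 1)) (map f P) = map f qZ := by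
    rw [← hP']
    have : ((aeval (fun i : Fin n => esymm (Fin n) ℚ (i.val + 1))) :
          MvPolynomial (Fin n) ℚ →ₐ[ℚ] MvPolynomial (Fin n) ℚ).toRingHom.comp (map f)
        = (map f).comp (aeval (fun i : Fin n => esymm (Fin n) ℤ (i.val + 1)) :
          MvPolynomial (Fin n) ℤ →ₐ[ℤ] MvPolynomial (Fin n) ℤ).toRingHom := by
      apply MvPolynomial.ringHom_ext
      · intro r; simp
      · intro i
        simp only [RingHom.comp_apply, map_X, AlgHom.toRingHom_eq_coe, RingHom.coe_coe, aeval_X]
        exact (map_esymm _ _ _ _).symm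
    exact congrArg (fun g : MvPolynomial (Fin n) ℤ →+* MvPolynomial (Fin n) ℚ => g P) this
  have hpos := fin_pos n k hk l (map f P) (map f qZ) hqQ hPQ
  have hnn : ∀ d, 0 ≤ coeff d P := by
    intro d
    have := hpos d
    rw [coeff_map, hf, eq_intCast] at this
    exact_mod_cast this
  refine ⟨fun d => (coeff d P).toNat, fun a ha => ?_⟩
  have hc : ∀ d, (((coeff d P).toNat : ℕ) : ℚ) = coeff d (map f P) := by
    intro d
    rw [coeff_map, hf, eq_intCast]
    have := Int.toNat_of_nonneg (hnn d)
    exact_mod_cast this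
  simp only [hc]
  rw [Multiset.map_coe, Multiset.prod_coe, ← hqQ, ← hPQ]
  -- expand
  set PQ := map f P with hPQdef
  have hexp : coeff a (aeval (fun i : Fin n => esymm (Fin n) ℚ (i.val + 1)) PQ)
      = ∑ d ∈ PQ.support, coeff d PQ * coeff a ((mOf d).map (esymm (Fin n) ℚ)).prod := by
    conv_lhs => rw [PQ.as_sum]
    rw [map_sum, coeff_sum]
    refine Finset.sum_congr rfl fun d _ => ?_
    have : monomial d (coeff d PQ) = (coeff d PQ) • monomial d (1 : ℚ) := by
      rw [smul_monomial, smul_eq_mul, mul_one]
    rw [this, map_smul, coeff_smul, smul_eq_mul, aeval_monomial_esymm]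
  rw [hexp]
  have hparts : ∀ lam : n.Partition, mOf (dOf n lam.parts) = lam.parts := by
    intro lam
    apply mOf_dOf
    intro b hb
    refine ⟨lam.parts_pos hb, ?_⟩
    have := Multiset.le_sum_of_mem hb
    rwa [lam.parts_sum] at this
  have hinj : Set.InjOn (fun lam : n.Partition => dOf n lam.parts)
      (Finset.univ : Finset n.Partition) := by
    intro lam _ lam' _ h
    have : mOf (dOf n lam.parts) = mOf (dOf n lam'.parts) := by
      simp only at h
      rw [h]
    rw [hparts, hparts] at this
    exact Nat.Partition.ext this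
  have e1 : ∑ lam : n.Partition, coeff (dOf n lam.parts) PQ *
        coeff a (lam.parts.map (esymm (Fin n) ℚ)).prod
      = ∑ d ∈ (Finset.univ : Finset n.Partition).image (fun lam => dOf n lam.parts),
        coeff d PQ * coeff a ((mOf d).map (esymm (Fin n) ℚ)).prod := by
    rw [Finset.sum_image hinj]
    refine Finset.sum_congr rfl fun lam _ => ?_
    rw [hparts]
  rw [e1]
  set S := (Finset.univ : Finset n.Partition).image (fun lam => dOf n lam.parts) with hS
  have h1 : ∑ d ∈ PQ.support, coeff d PQ * coeff a ((mOf d).map (esymm (Fin n) ℚ)).prod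
      = ∑ d ∈ PQ.support ∪ S, coeff d PQ * coeff a ((mOf d).map (esymm (Fin n) ℚ)).prod := by
    apply Finset.sum_subset Finset.subset_union_left
    intro d _ hd
    rw [notMem_support_iff.1 hd, zero_mul]
  have h2 : ∑ d ∈ S, coeff d PQ * coeff a ((mOf d).map (esymm (Fin n) ℚ)).prod
      = ∑ d ∈ PQ.support ∪ S, coeff d PQ * coeff a ((mOf d).map (esymm (Fin n) ℚ)).prod := by
    apply Finset.sum_subset Finset.subset_union_right
    intro d _ hd
    by_cases hz : coeff a ((mOf d).map (esymm (Fin n) ℚ)).prod = 0
    · rw [hz, mul_zero]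
    · exfalso
      apply hd
      have hdeg := coeff_prod_esymm _ a hz
      rw [ha] at hdeg
      rw [hS, Finset.mem_image]
      refine ⟨⟨mOf d, ?_, hdeg.symm⟩, Finset.mem_univ _, ?_⟩
      · intro i hi
        have : (mOf d).count i ≠ 0 := by
          rw [Multiset.count_ne_zero]; exact hi
        rw [count_mOf] at this
        obtain ⟨j, _, hj⟩ := Finset.exists_ne_zero_of_sum_ne_zero this
        have := right_ne_zero_of_mul hj
        by_contra hcon
        rw [if_neg (by omega)] at this
        exact this rfl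
      · exact dOf_mOf d
  rw [h1, h2]

end Pool.Agent.T6.H58.RK
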